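import Pool.Agent.Helper2.GV.StepM

/-!
Project GV, module Atoms: the vector of a unitary matrix is in the cone of the 108 atoms.

Proof.  `f q` (`q = 1, 2, 3`) from `exists_f U hU q` (GM/Cone.lean): `f q k l ≥ 0`, diagonal `0`, row
sums `P U 0 k`, `f q k l + f q l k = mm U 0 q k l`.  With
`W k l1 l2 l3 = f 1 k l1 * f 2 k l2 * f 3 k l3 / (P U 0 k)^2` (all `f q k _ = 0` if `P U 0 k = 0`) one
has `∑_{l2, l3} W k l1 l2 l3 = f 1 k l1` etc., `∑_{l1, l2, l3} W k .. = P U 0 k`, and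
`vec (atm k l1 l2 l3) = e_k + u_1 (k, l1) + u_2 (k, l2) + u_3 (k, l3)` for `l_q ≠ k` (unit vectors; the
digits of `atm` by `decide +kernel`), hence `xU U = ∑ W • vec (atm ..)`.
-/

set_option autoImplicit false

namespace Pool.Agent.Helper2.GV

open Matrix Complex Equiv Pool.Agent.Helper2.GM

private def u0 (k : Fin 4) : E := fun i => if (i : ℕ) = k then 1 else 0

private def uq (s : ℕ) (k l : Fin 4) : E := fun i => if (i : ℕ) = s + eI k l then 1 else 0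

private theorem dg_atm : ∀ (i : Fin 22) (k l1 l2 l3 : Fin 4), dg i (atm k l1 l2 l3) =
    (if (i : ℕ) = k then 1 else 0) + (if (i : ℕ) = 4 + eI k l1 then 1 else 0) +
      (if (i : ℕ) = 10 + eI k l2 then 1 else 0) + (if (i : ℕ) = 16 + eI k l3 then 1 else 0) := by
  decide +kernel

private theorem vec_atm (k l1 l2 l3 : Fin 4) :
    vec (atm k l1 l2 l3) = u0 k + uq 4 k l1 + uq 10 k l2 + uq 16 k l3 := by
  funext i
  simp only [vec, u0, uq, Pi.add_apply]
  rw [dg_atm]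
  push_cast
  rfl

private theorem sum3 (f g h b c d : Fin 4 → ℝ) (a p : ℝ) (hp : p ≠ 0) (hf : ∑ l, f l = p)
    (hg : ∑ l, g l = p) (hh : ∑ l, h l = p) :
    ∑ l1, ∑ l2, ∑ l3, f l1 * g l2 * h l3 / p ^ 2 * (a + b l1 + c l2 + d l3) =
      p * a + ∑ l, f l * b l + ∑ l, g l * c l + ∑ l, h l * d l := by
  have e3 : ∀ x A : ℝ, ∑ l3, x * h l3 / p ^ 2 * (A + d l3) =
      x * (A * p + ∑ l, h l * d l) / p ^ 2 := by
    intro x A
    rw [← hh]
    simp only [Fin.sum_univ_four]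
    ring
  have e2 : ∀ x A : ℝ, ∑ l2, x * g l2 * ((A + c l2) * p + ∑ l, h l * d l) / p ^ 2 =
      x * (A * p ^ 2 + p * (∑ l, g l * c l) + p * ∑ l, h l * d l) / p ^ 2 := by
    intro x A
    have e4 : ∑ l2, x * g l2 * ((A + c l2) * p + ∑ l, h l * d l) / p ^ 2 =
        x * (A * p * (∑ l, g l) + p * (∑ l, g l * c l) + (∑ l, g l) * ∑ l, h l * d l) / p ^ 2 := by
      generalize ∑ l, h l * d l = t
      simp only [Fin.sum_univ_four]
      ring
    rw [e4, hg]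
    ring
  have e1 : ∑ l1, f l1 * ((a + b l1) * p ^ 2 + p * (∑ l, g l * c l) + p * ∑ l, h l * d l) /
      p ^ 2 = (∑ l, f l) * a + ∑ l, f l * b l +
        (∑ l, f l) * ((∑ l, g l * c l) + ∑ l, h l * d l) / p := by
    generalize ∑ l, h l * d l = t
    generalize ∑ l, g l * c l = t'
    simp only [Fin.sum_univ_four]
    field_simp
    ring
  simp only [e3, e2, e1]
  rw [hf]
  field_simp
  ring

theorem xU_atoms (U : M4) (hU : U ∈ unitaryGroup (Fin 4) ℂ) : InCn atoms (xU U) := by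
  classical
  obtain ⟨f1, n1, m1, s1, d1⟩ := exists_f U hU 1 (by decide)
  obtain ⟨f2, n2, m2, s2, d2⟩ := exists_f U hU 2 (by decide)
  obtain ⟨f3, n3, m3, s3, d3⟩ := exists_f U hU 3 (by decide)
  have t1 : ∀ j, ∑ l, f1 j l = P U 0 j := fun j => by rw [Fin.sum_univ_four]; exact s1 j
  have t2 : ∀ j, ∑ l, f2 j l = P U 0 j := fun j => by rw [Fin.sum_univ_four]; exact s2 j
  have t3 : ∀ j, ∑ l, f3 j l = P U 0 j := fun j => by rw [Fin.sum_univ_four]; exact s3 j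
  have hz : ∀ f : Fin 4 → Fin 4 → ℝ, (∀ j l, 0 ≤ f j l) → (∀ j, ∑ l, f j l = P U 0 j) →
      ∀ j, P U 0 j = 0 → ∀ l, f j l = 0 := by
    intro f hn ht j hj l
    have h1 := ht j
    rw [hj, Finset.sum_eq_zero_iff_of_nonneg fun l _ => hn j l] at h1
    exact h1 l (Finset.mem_univ l)
  have hk : ∀ (k : Fin 4) (i : Fin 22), ∑ l1, ∑ l2, ∑ l3,
      f1 k l1 * f2 k l2 * f3 k l3 / P U 0 k ^ 2 *
        (u0 k i + uq 4 k l1 i + uq 10 k l2 i + uq 16 k l3 i) =
      P U 0 k * u0 k i + ∑ l, f1 k l * uq 4 k l i + ∑ l, f2 k l * uq 10 k l i +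
        ∑ l, f3 k l * uq 16 k l i := by
    intro k i
    by_cases h0 : P U 0 k = 0
    · have z1 := hz f1 n1 t1 k h0
      have z2 := hz f2 n2 t2 k h0
      have z3 := hz f3 n3 t3 k h0
      simp [z1, z2, z3, h0]
    · exact sum3 (f1 k) (f2 k) (f3 k) (fun l => uq 4 k l i) (fun l => uq 10 k l i)
        (fun l => uq 16 k l i) (u0 k i) (P U 0 k) h0 (t1 k) (t2 k) (t3 k)
  have key : xU U = ∑ k, ∑ l1, ∑ l2, ∑ l3, (f1 k l1 * f2 k l2 * f3 k l3 / P U 0 k ^ 2) •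
      vec (atm k l1 l2 l3) := by
    funext i
    simp only [Finset.sum_apply, Pi.smul_apply, smul_eq_mul, vec_atm, Pi.add_apply]
    rw [Finset.sum_congr rfl fun k _ => hk k i]
    fin_cases i <;>
      simp [xU, u0, uq, eI, Fin.sum_univ_four, d1, d2, d3, ← m1, ← m2, ← m3]
  rw [key]
  refine InCn.sum _ _ fun k _ => InCn.sum _ _ fun l1 _ => InCn.sum _ _ fun l2 _ =>
    InCn.sum _ _ fun l3 _ => ?_
  by_cases hv : l1 ≠ k ∧ l2 ≠ k ∧ l3 ≠ k
  · refine InCn.smul _ ?_ (InCn.single ?_)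
    · exact div_nonneg (mul_nonneg (mul_nonneg (n1 _ _) (n2 _ _)) (n3 _ _)) (sq_nonneg _)
    · unfold atoms
      rw [Finset.mem_image]
      exact ⟨(k, l1, l2, l3), Finset.mem_filter.2 ⟨Finset.mem_univ _, hv⟩, rfl⟩
  · have hw : f1 k l1 * f2 k l2 * f3 k l3 / P U 0 k ^ 2 = 0 := by
      by_cases h1 : l1 = k
      · rw [h1, d1]; simp
      by_cases h2 : l2 = k
      · rw [h2, d2]; simp
      by_cases h3 : l3 = k
      · rw [h3, d3]; simp
      · exact absurd ⟨h1, h2, h3⟩ hv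
    rw [hw, zero_smul]
    exact InCn.zero _

end Pool.Agent.Helper2.GV
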