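import Pool.Agent.Helper2.GV.Defs

/-!
Project GV: the 48 exceptional points.
-/

set_option autoImplicit false

namespace Pool.Agent.Helper2.GV

open Matrix Complex Equiv Pool.Agent.Helper2.GM

/-- the 3-cycle `1 ↦ 2 ↦ 3 ↦ 1` and its inverse -/
def cc : Perm (Fin 4) := swap 1 2 * swap 2 3

def cc' : Perm (Fin 4) := swap 2 3 * swap 1 2

/-- the exceptional points -/
noncomputable def VV (c h : Perm (Fin 4)) : Pt → ℂ := fun x =>
  (Z (h * swap 0 1) x + Z (h * swap 0 2) x + Z (h * swap 0 3) x + Z (h * c) x - Z h x) / 3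

end Pool.Agent.Helper2.GV
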