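import Pool.Agent.Helper2.GV.Defs

/-!
Project GV, module LamM: `Lam` is linear, `Lam (xU U)` is the determinant, `Lam` of a permutation is
the product.
-/

set_option autoImplicit false

namespace Pool.Agent.Helper2.GV

open Matrix Complex Equiv Pool.Agent.Helper2.GM

theorem lam_add (x y : E) : Lam (x + y) = fun z => Lam x z + Lam y z := by
  funext z
  simp only [Lam, Ph, pc, mc1, mc2, mc3, tau, Pi.add_apply, Matrix.cons_val]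
  push_cast
  ring

theorem lam_smul (t : ℝ) (x : E) : Lam (t • x) = fun z => (t : ℂ) * Lam x z := by
  funext z
  simp only [Lam, Ph, pc, mc1, mc2, mc3, tau, Pi.smul_apply, smul_eq_mul, Matrix.cons_val]
  push_cast
  ring

theorem tau_add (x y : E) : tau (x + y) = tau x + tau y := by
  simp only [tau, Pi.add_apply]
  ring

theorem tau_smul (t : ℝ) (x : E) : tau (t • x) = t * tau x := by
  simp only [tau, Pi.smul_apply, smul_eq_mul]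
  ring

theorem mc1_U (U : M4) : mc1 (xU U) = mm U 0 1 := by
  funext k l
  fin_cases k <;> fin_cases l <;>
    simp [mc1, xU, mm_self, mm_comm U 0 1 1 0, mm_comm U 0 1 2 0, mm_comm U 0 1 3 0,
      mm_comm U 0 1 2 1, mm_comm U 0 1 3 1, mm_comm U 0 1 3 2]

theorem mc2_U (U : M4) : mc2 (xU U) = mm U 0 2 := by
  funext k l
  fin_cases k <;> fin_cases l <;>
    simp [mc2, xU, mm_self, mm_comm U 0 2 1 0, mm_comm U 0 2 2 0, mm_comm U 0 2 3 0,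
      mm_comm U 0 2 2 1, mm_comm U 0 2 3 1, mm_comm U 0 2 3 2]

theorem mc3_U (U : M4) : mc3 (xU U) = mm U 0 3 := by
  funext k l
  fin_cases k <;> fin_cases l <;>
    simp [mc3, xU, mm_self, mm_comm U 0 3 1 0, mm_comm U 0 3 2 0, mm_comm U 0 3 3 0,
      mm_comm U 0 3 2 1, mm_comm U 0 3 3 1, mm_comm U 0 3 3 2]

theorem pc_U (U : M4) : pc (xU U) = P U 0 := by
  funext k
  fin_cases k <;> simp [pc, xU]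

theorem tau_U (U : M4) (hU : U ∈ unitaryGroup (Fin 4) ℂ) : tau (xU U) = 1 := by
  have h := row_norm U hU 0
  rw [Fin.sum_univ_four] at h
  simp only [tau, xU, Matrix.cons_val]
  exact h

theorem lam_U (U : M4) (hU : U ∈ unitaryGroup (Fin 4) ℂ) (y : Pt) :
    Lam (xU U) y = DD U y.1 y.2 := by
  have hG : DD U y.1 y.2 = G U y.2 (y.1 0) (y.1 1) (y.1 2) (y.1 3) := by
    unfold G
    congr 1
    funext i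
    fin_cases i <;> rfl
  rw [hG, DD_Ph U hU]
  unfold Lam
  rw [tau_U U hU, mc1_U, mc2_U, mc3_U, pc_U]
  have hP : (fun i k => (![P U 0 k,
      mm U 0 1 k 0 + mm U 0 1 k 1 + mm U 0 1 k 2 + mm U 0 1 k 3 - P U 0 k,
      mm U 0 2 k 0 + mm U 0 2 k 1 + mm U 0 2 k 2 + mm U 0 2 k 3 - P U 0 k,
      mm U 0 3 k 0 + mm U 0 3 k 1 + mm U 0 3 k 2 + mm U 0 3 k 3 - P U 0 k] : Fin 4 → ℝ) i)
      = P U := by
    funext i k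
    have h : ∀ q : Fin 4, 0 ≠ q →
        mm U 0 q k 0 + mm U 0 q k 1 + mm U 0 q k 2 + mm U 0 q k 3 - P U 0 k = P U q k := by
      intro q hq
      have h := sum_mm_row U hU 0 q hq k
      rw [Fin.sum_univ_four] at h
      linarith
    have h1 := h 1 (by decide)
    have h2 := h 2 (by decide)
    have h3 := h 3 (by decide)
    fin_cases i
    · rfl
    · exact h1
    · exact h2
    · exact h3
  rw [hP]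
  push_cast
  ring

theorem w0 : vec (atm 0 1 2 3)
    = ![1, 0, 0, 0, 1, 0, 0, 0, 0, 0, 0, 1, 0, 0, 0, 0, 0, 0, 1, 0, 0, 0] := by
  have hv : ∀ i : Fin 22, dg i (atm 0 1 2 3)
      = (![1, 0, 0, 0, 1, 0, 0, 0, 0, 0, 0, 1, 0, 0, 0, 0, 0, 0, 1, 0, 0, 0] : Fin 22 → ℕ) i := by
    decide +kernel
  funext i
  unfold vec
  rw [hv i]
  fin_cases i <;> simp

theorem c0 (y : Pt) : Lam (vec (atm 0 1 2 3)) y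
    = (y.1 0 + y.2 0) * (y.1 1 + y.2 1) * (y.1 2 + y.2 2) * (y.1 3 + y.2 3) := by
  rw [w0]
  simp only [Lam, Ph, pc, mc1, mc2, mc3, tau, Matrix.cons_val]
  push_cast
  ring

theorem w1 : vec (atm 0 1 3 2)
    = ![1, 0, 0, 0, 1, 0, 0, 0, 0, 0, 0, 0, 1, 0, 0, 0, 0, 1, 0, 0, 0, 0] := by
  have hv : ∀ i : Fin 22, dg i (atm 0 1 3 2)
      = (![1, 0, 0, 0, 1, 0, 0, 0, 0, 0, 0, 0, 1, 0, 0, 0, 0, 1, 0, 0, 0, 0] : Fin 22 → ℕ) i := by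
    decide +kernel
  funext i
  unfold vec
  rw [hv i]
  fin_cases i <;> simp

theorem c1 (y : Pt) : Lam (vec (atm 0 1 3 2)) y
    = (y.1 0 + y.2 0) * (y.1 1 + y.2 1) * (y.1 2 + y.2 3) * (y.1 3 + y.2 2) := by
  rw [w1]
  simp only [Lam, Ph, pc, mc1, mc2, mc3, tau, Matrix.cons_val]
  push_cast
  ring

theorem w2 : vec (atm 0 2 1 3)
    = ![1, 0, 0, 0, 0, 1, 0, 0, 0, 0, 1, 0, 0, 0, 0, 0, 0, 0, 1, 0, 0, 0] := by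
  have hv : ∀ i : Fin 22, dg i (atm 0 2 1 3)
      = (![1, 0, 0, 0, 0, 1, 0, 0, 0, 0, 1, 0, 0, 0, 0, 0, 0, 0, 1, 0, 0, 0] : Fin 22 → ℕ) i := by
    decide +kernel
  funext i
  unfold vec
  rw [hv i]
  fin_cases i <;> simp

theorem c2 (y : Pt) : Lam (vec (atm 0 2 1 3)) y
    = (y.1 0 + y.2 0) * (y.1 1 + y.2 2) * (y.1 2 + y.2 1) * (y.1 3 + y.2 3) := by
  rw [w2]
  simp only [Lam, Ph, pc, mc1, mc2, mc3, tau, Matrix.cons_val]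
  push_cast
  ring

theorem w3 : vec (atm 0 2 3 1)
    = ![1, 0, 0, 0, 0, 1, 0, 0, 0, 0, 0, 0, 1, 0, 0, 0, 1, 0, 0, 0, 0, 0] := by
  have hv : ∀ i : Fin 22, dg i (atm 0 2 3 1)
      = (![1, 0, 0, 0, 0, 1, 0, 0, 0, 0, 0, 0, 1, 0, 0, 0, 1, 0, 0, 0, 0, 0] : Fin 22 → ℕ) i := by
    decide +kernel
  funext i
  unfold vec
  rw [hv i]
  fin_cases i <;> simp

theorem c3 (y : Pt) : Lam (vec (atm 0 2 3 1)) y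
    = (y.1 0 + y.2 0) * (y.1 1 + y.2 2) * (y.1 2 + y.2 3) * (y.1 3 + y.2 1) := by
  rw [w3]
  simp only [Lam, Ph, pc, mc1, mc2, mc3, tau, Matrix.cons_val]
  push_cast
  ring

theorem w4 : vec (atm 0 3 1 2)
    = ![1, 0, 0, 0, 0, 0, 1, 0, 0, 0, 1, 0, 0, 0, 0, 0, 0, 1, 0, 0, 0, 0] := by
  have hv : ∀ i : Fin 22, dg i (atm 0 3 1 2)
      = (![1, 0, 0, 0, 0, 0, 1, 0, 0, 0, 1, 0, 0, 0, 0, 0, 0, 1, 0, 0, 0, 0] : Fin 22 → ℕ) i := by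
    decide +kernel
  funext i
  unfold vec
  rw [hv i]
  fin_cases i <;> simp

theorem c4 (y : Pt) : Lam (vec (atm 0 3 1 2)) y
    = (y.1 0 + y.2 0) * (y.1 1 + y.2 3) * (y.1 2 + y.2 1) * (y.1 3 + y.2 2) := by
  rw [w4]
  simp only [Lam, Ph, pc, mc1, mc2, mc3, tau, Matrix.cons_val]
  push_cast
  ring

theorem w5 : vec (atm 0 3 2 1)
    = ![1, 0, 0, 0, 0, 0, 1, 0, 0, 0, 0, 1, 0, 0, 0, 0, 1, 0, 0, 0, 0, 0] := by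
  have hv : ∀ i : Fin 22, dg i (atm 0 3 2 1)
      = (![1, 0, 0, 0, 0, 0, 1, 0, 0, 0, 0, 1, 0, 0, 0, 0, 1, 0, 0, 0, 0, 0] : Fin 22 → ℕ) i := by
    decide +kernel
  funext i
  unfold vec
  rw [hv i]
  fin_cases i <;> simp

theorem c5 (y : Pt) : Lam (vec (atm 0 3 2 1)) y
    = (y.1 0 + y.2 0) * (y.1 1 + y.2 3) * (y.1 2 + y.2 2) * (y.1 3 + y.2 1) := by
  rw [w5]
  simp only [Lam, Ph, pc, mc1, mc2, mc3, tau, Matrix.cons_val]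
  push_cast
  ring

theorem w6 : vec (atm 1 0 2 3)
    = ![0, 1, 0, 0, 1, 0, 0, 0, 0, 0, 0, 0, 0, 1, 0, 0, 0, 0, 0, 0, 1, 0] := by
  have hv : ∀ i : Fin 22, dg i (atm 1 0 2 3)
      = (![0, 1, 0, 0, 1, 0, 0, 0, 0, 0, 0, 0, 0, 1, 0, 0, 0, 0, 0, 0, 1, 0] : Fin 22 → ℕ) i := by
    decide +kernel
  funext i
  unfold vec
  rw [hv i]
  fin_cases i <;> simp

theorem c6 (y : Pt) : Lam (vec (atm 1 0 2 3)) y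
    = (y.1 0 + y.2 1) * (y.1 1 + y.2 0) * (y.1 2 + y.2 2) * (y.1 3 + y.2 3) := by
  rw [w6]
  simp only [Lam, Ph, pc, mc1, mc2, mc3, tau, Matrix.cons_val]
  push_cast
  ring

theorem w7 : vec (atm 1 0 3 2)
    = ![0, 1, 0, 0, 1, 0, 0, 0, 0, 0, 0, 0, 0, 0, 1, 0, 0, 0, 0, 1, 0, 0] := by
  have hv : ∀ i : Fin 22, dg i (atm 1 0 3 2)
      = (![0, 1, 0, 0, 1, 0, 0, 0, 0, 0, 0, 0, 0, 0, 1, 0, 0, 0, 0, 1, 0, 0] : Fin 22 → ℕ) i := by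
    decide +kernel
  funext i
  unfold vec
  rw [hv i]
  fin_cases i <;> simp

theorem c7 (y : Pt) : Lam (vec (atm 1 0 3 2)) y
    = (y.1 0 + y.2 1) * (y.1 1 + y.2 0) * (y.1 2 + y.2 3) * (y.1 3 + y.2 2) := by
  rw [w7]
  simp only [Lam, Ph, pc, mc1, mc2, mc3, tau, Matrix.cons_val]
  push_cast
  ring

theorem w8 : vec (atm 1 2 0 3)
    = ![0, 1, 0, 0, 0, 0, 0, 1, 0, 0, 1, 0, 0, 0, 0, 0, 0, 0, 0, 0, 1, 0] := by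
  have hv : ∀ i : Fin 22, dg i (atm 1 2 0 3)
      = (![0, 1, 0, 0, 0, 0, 0, 1, 0, 0, 1, 0, 0, 0, 0, 0, 0, 0, 0, 0, 1, 0] : Fin 22 → ℕ) i := by
    decide +kernel
  funext i
  unfold vec
  rw [hv i]
  fin_cases i <;> simp

theorem c8 (y : Pt) : Lam (vec (atm 1 2 0 3)) y
    = (y.1 0 + y.2 1) * (y.1 1 + y.2 2) * (y.1 2 + y.2 0) * (y.1 3 + y.2 3) := by
  rw [w8]
  simp only [Lam, Ph, pc, mc1, mc2, mc3, tau, Matrix.cons_val]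
  push_cast
  ring

theorem w9 : vec (atm 1 2 3 0)
    = ![0, 1, 0, 0, 0, 0, 0, 1, 0, 0, 0, 0, 0, 0, 1, 0, 1, 0, 0, 0, 0, 0] := by
  have hv : ∀ i : Fin 22, dg i (atm 1 2 3 0)
      = (![0, 1, 0, 0, 0, 0, 0, 1, 0, 0, 0, 0, 0, 0, 1, 0, 1, 0, 0, 0, 0, 0] : Fin 22 → ℕ) i := by
    decide +kernel
  funext i
  unfold vec
  rw [hv i]
  fin_cases i <;> simp

theorem c9 (y : Pt) : Lam (vec (atm 1 2 3 0)) y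
    = (y.1 0 + y.2 1) * (y.1 1 + y.2 2) * (y.1 2 + y.2 3) * (y.1 3 + y.2 0) := by
  rw [w9]
  simp only [Lam, Ph, pc, mc1, mc2, mc3, tau, Matrix.cons_val]
  push_cast
  ring

theorem w10 : vec (atm 1 3 0 2)
    = ![0, 1, 0, 0, 0, 0, 0, 0, 1, 0, 1, 0, 0, 0, 0, 0, 0, 0, 0, 1, 0, 0] := by
  have hv : ∀ i : Fin 22, dg i (atm 1 3 0 2)
      = (![0, 1, 0, 0, 0, 0, 0, 0, 1, 0, 1, 0, 0, 0, 0, 0, 0, 0, 0, 1, 0, 0] : Fin 22 → ℕ) i := by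
    decide +kernel
  funext i
  unfold vec
  rw [hv i]
  fin_cases i <;> simp

theorem c10 (y : Pt) : Lam (vec (atm 1 3 0 2)) y
    = (y.1 0 + y.2 1) * (y.1 1 + y.2 3) * (y.1 2 + y.2 0) * (y.1 3 + y.2 2) := by
  rw [w10]
  simp only [Lam, Ph, pc, mc1, mc2, mc3, tau, Matrix.cons_val]
  push_cast
  ring

theorem w11 : vec (atm 1 3 2 0)
    = ![0, 1, 0, 0, 0, 0, 0, 0, 1, 0, 0, 0, 0, 1, 0, 0, 1, 0, 0, 0, 0, 0] := by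
  have hv : ∀ i : Fin 22, dg i (atm 1 3 2 0)
      = (![0, 1, 0, 0, 0, 0, 0, 0, 1, 0, 0, 0, 0, 1, 0, 0, 1, 0, 0, 0, 0, 0] : Fin 22 → ℕ) i := by
    decide +kernel
  funext i
  unfold vec
  rw [hv i]
  fin_cases i <;> simp

theorem c11 (y : Pt) : Lam (vec (atm 1 3 2 0)) y
    = (y.1 0 + y.2 1) * (y.1 1 + y.2 3) * (y.1 2 + y.2 2) * (y.1 3 + y.2 0) := by
  rw [w11]
  simp only [Lam, Ph, pc, mc1, mc2, mc3, tau, Matrix.cons_val]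
  push_cast
  ring

theorem w12 : vec (atm 2 0 1 3)
    = ![0, 0, 1, 0, 0, 1, 0, 0, 0, 0, 0, 0, 0, 1, 0, 0, 0, 0, 0, 0, 0, 1] := by
  have hv : ∀ i : Fin 22, dg i (atm 2 0 1 3)
      = (![0, 0, 1, 0, 0, 1, 0, 0, 0, 0, 0, 0, 0, 1, 0, 0, 0, 0, 0, 0, 0, 1] : Fin 22 → ℕ) i := by
    decide +kernel
  funext i
  unfold vec
  rw [hv i]
  fin_cases i <;> simp

theorem c12 (y : Pt) : Lam (vec (atm 2 0 1 3)) y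
    = (y.1 0 + y.2 2) * (y.1 1 + y.2 0) * (y.1 2 + y.2 1) * (y.1 3 + y.2 3) := by
  rw [w12]
  simp only [Lam, Ph, pc, mc1, mc2, mc3, tau, Matrix.cons_val]
  push_cast
  ring

theorem w13 : vec (atm 2 0 3 1)
    = ![0, 0, 1, 0, 0, 1, 0, 0, 0, 0, 0, 0, 0, 0, 0, 1, 0, 0, 0, 1, 0, 0] := by
  have hv : ∀ i : Fin 22, dg i (atm 2 0 3 1)
      = (![0, 0, 1, 0, 0, 1, 0, 0, 0, 0, 0, 0, 0, 0, 0, 1, 0, 0, 0, 1, 0, 0] : Fin 22 → ℕ) i := by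
    decide +kernel
  funext i
  unfold vec
  rw [hv i]
  fin_cases i <;> simp

theorem c13 (y : Pt) : Lam (vec (atm 2 0 3 1)) y
    = (y.1 0 + y.2 2) * (y.1 1 + y.2 0) * (y.1 2 + y.2 3) * (y.1 3 + y.2 1) := by
  rw [w13]
  simp only [Lam, Ph, pc, mc1, mc2, mc3, tau, Matrix.cons_val]
  push_cast
  ring

theorem w14 : vec (atm 2 1 0 3)
    = ![0, 0, 1, 0, 0, 0, 0, 1, 0, 0, 0, 1, 0, 0, 0, 0, 0, 0, 0, 0, 0, 1] := by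
  have hv : ∀ i : Fin 22, dg i (atm 2 1 0 3)
      = (![0, 0, 1, 0, 0, 0, 0, 1, 0, 0, 0, 1, 0, 0, 0, 0, 0, 0, 0, 0, 0, 1] : Fin 22 → ℕ) i := by
    decide +kernel
  funext i
  unfold vec
  rw [hv i]
  fin_cases i <;> simp

theorem c14 (y : Pt) : Lam (vec (atm 2 1 0 3)) y
    = (y.1 0 + y.2 2) * (y.1 1 + y.2 1) * (y.1 2 + y.2 0) * (y.1 3 + y.2 3) := by
  rw [w14]
  simp only [Lam, Ph, pc, mc1, mc2, mc3, tau, Matrix.cons_val]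
  push_cast
  ring

theorem w15 : vec (atm 2 1 3 0)
    = ![0, 0, 1, 0, 0, 0, 0, 1, 0, 0, 0, 0, 0, 0, 0, 1, 0, 1, 0, 0, 0, 0] := by
  have hv : ∀ i : Fin 22, dg i (atm 2 1 3 0)
      = (![0, 0, 1, 0, 0, 0, 0, 1, 0, 0, 0, 0, 0, 0, 0, 1, 0, 1, 0, 0, 0, 0] : Fin 22 → ℕ) i := by
    decide +kernel
  funext i
  unfold vec
  rw [hv i]
  fin_cases i <;> simp

theorem c15 (y : Pt) : Lam (vec (atm 2 1 3 0)) y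
    = (y.1 0 + y.2 2) * (y.1 1 + y.2 1) * (y.1 2 + y.2 3) * (y.1 3 + y.2 0) := by
  rw [w15]
  simp only [Lam, Ph, pc, mc1, mc2, mc3, tau, Matrix.cons_val]
  push_cast
  ring

theorem w16 : vec (atm 2 3 0 1)
    = ![0, 0, 1, 0, 0, 0, 0, 0, 0, 1, 0, 1, 0, 0, 0, 0, 0, 0, 0, 1, 0, 0] := by
  have hv : ∀ i : Fin 22, dg i (atm 2 3 0 1)
      = (![0, 0, 1, 0, 0, 0, 0, 0, 0, 1, 0, 1, 0, 0, 0, 0, 0, 0, 0, 1, 0, 0] : Fin 22 → ℕ) i := by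
    decide +kernel
  funext i
  unfold vec
  rw [hv i]
  fin_cases i <;> simp

theorem c16 (y : Pt) : Lam (vec (atm 2 3 0 1)) y
    = (y.1 0 + y.2 2) * (y.1 1 + y.2 3) * (y.1 2 + y.2 0) * (y.1 3 + y.2 1) := by
  rw [w16]
  simp only [Lam, Ph, pc, mc1, mc2, mc3, tau, Matrix.cons_val]
  push_cast
  ring

theorem w17 : vec (atm 2 3 1 0)
    = ![0, 0, 1, 0, 0, 0, 0, 0, 0, 1, 0, 0, 0, 1, 0, 0, 0, 1, 0, 0, 0, 0] := by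
  have hv : ∀ i : Fin 22, dg i (atm 2 3 1 0)
      = (![0, 0, 1, 0, 0, 0, 0, 0, 0, 1, 0, 0, 0, 1, 0, 0, 0, 1, 0, 0, 0, 0] : Fin 22 → ℕ) i := by
    decide +kernel
  funext i
  unfold vec
  rw [hv i]
  fin_cases i <;> simp

theorem c17 (y : Pt) : Lam (vec (atm 2 3 1 0)) y
    = (y.1 0 + y.2 2) * (y.1 1 + y.2 3) * (y.1 2 + y.2 1) * (y.1 3 + y.2 0) := by
  rw [w17]
  simp only [Lam, Ph, pc, mc1, mc2, mc3, tau, Matrix.cons_val]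
  push_cast
  ring

theorem w18 : vec (atm 3 0 1 2)
    = ![0, 0, 0, 1, 0, 0, 1, 0, 0, 0, 0, 0, 0, 0, 1, 0, 0, 0, 0, 0, 0, 1] := by
  have hv : ∀ i : Fin 22, dg i (atm 3 0 1 2)
      = (![0, 0, 0, 1, 0, 0, 1, 0, 0, 0, 0, 0, 0, 0, 1, 0, 0, 0, 0, 0, 0, 1] : Fin 22 → ℕ) i := by
    decide +kernel
  funext i
  unfold vec
  rw [hv i]
  fin_cases i <;> simp

theorem c18 (y : Pt) : Lam (vec (atm 3 0 1 2)) y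
    = (y.1 0 + y.2 3) * (y.1 1 + y.2 0) * (y.1 2 + y.2 1) * (y.1 3 + y.2 2) := by
  rw [w18]
  simp only [Lam, Ph, pc, mc1, mc2, mc3, tau, Matrix.cons_val]
  push_cast
  ring

theorem w19 : vec (atm 3 0 2 1)
    = ![0, 0, 0, 1, 0, 0, 1, 0, 0, 0, 0, 0, 0, 0, 0, 1, 0, 0, 0, 0, 1, 0] := by
  have hv : ∀ i : Fin 22, dg i (atm 3 0 2 1)
      = (![0, 0, 0, 1, 0, 0, 1, 0, 0, 0, 0, 0, 0, 0, 0, 1, 0, 0, 0, 0, 1, 0] : Fin 22 → ℕ) i := by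
    decide +kernel
  funext i
  unfold vec
  rw [hv i]
  fin_cases i <;> simp

theorem c19 (y : Pt) : Lam (vec (atm 3 0 2 1)) y
    = (y.1 0 + y.2 3) * (y.1 1 + y.2 0) * (y.1 2 + y.2 2) * (y.1 3 + y.2 1) := by
  rw [w19]
  simp only [Lam, Ph, pc, mc1, mc2, mc3, tau, Matrix.cons_val]
  push_cast
  ring

theorem w20 : vec (atm 3 1 0 2)
    = ![0, 0, 0, 1, 0, 0, 0, 0, 1, 0, 0, 0, 1, 0, 0, 0, 0, 0, 0, 0, 0, 1] := by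
  have hv : ∀ i : Fin 22, dg i (atm 3 1 0 2)
      = (![0, 0, 0, 1, 0, 0, 0, 0, 1, 0, 0, 0, 1, 0, 0, 0, 0, 0, 0, 0, 0, 1] : Fin 22 → ℕ) i := by
    decide +kernel
  funext i
  unfold vec
  rw [hv i]
  fin_cases i <;> simp

theorem c20 (y : Pt) : Lam (vec (atm 3 1 0 2)) y
    = (y.1 0 + y.2 3) * (y.1 1 + y.2 1) * (y.1 2 + y.2 0) * (y.1 3 + y.2 2) := by
  rw [w20]
  simp only [Lam, Ph, pc, mc1, mc2, mc3, tau, Matrix.cons_val]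
  push_cast
  ring

theorem w21 : vec (atm 3 1 2 0)
    = ![0, 0, 0, 1, 0, 0, 0, 0, 1, 0, 0, 0, 0, 0, 0, 1, 0, 0, 1, 0, 0, 0] := by
  have hv : ∀ i : Fin 22, dg i (atm 3 1 2 0)
      = (![0, 0, 0, 1, 0, 0, 0, 0, 1, 0, 0, 0, 0, 0, 0, 1, 0, 0, 1, 0, 0, 0] : Fin 22 → ℕ) i := by
    decide +kernel
  funext i
  unfold vec
  rw [hv i]
  fin_cases i <;> simp

theorem c21 (y : Pt) : Lam (vec (atm 3 1 2 0)) y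
    = (y.1 0 + y.2 3) * (y.1 1 + y.2 1) * (y.1 2 + y.2 2) * (y.1 3 + y.2 0) := by
  rw [w21]
  simp only [Lam, Ph, pc, mc1, mc2, mc3, tau, Matrix.cons_val]
  push_cast
  ring

theorem w22 : vec (atm 3 2 0 1)
    = ![0, 0, 0, 1, 0, 0, 0, 0, 0, 1, 0, 0, 1, 0, 0, 0, 0, 0, 0, 0, 1, 0] := by
  have hv : ∀ i : Fin 22, dg i (atm 3 2 0 1)
      = (![0, 0, 0, 1, 0, 0, 0, 0, 0, 1, 0, 0, 1, 0, 0, 0, 0, 0, 0, 0, 1, 0] : Fin 22 → ℕ) i := by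
    decide +kernel
  funext i
  unfold vec
  rw [hv i]
  fin_cases i <;> simp

theorem c22 (y : Pt) : Lam (vec (atm 3 2 0 1)) y
    = (y.1 0 + y.2 3) * (y.1 1 + y.2 2) * (y.1 2 + y.2 0) * (y.1 3 + y.2 1) := by
  rw [w22]
  simp only [Lam, Ph, pc, mc1, mc2, mc3, tau, Matrix.cons_val]
  push_cast
  ring

theorem w23 : vec (atm 3 2 1 0)
    = ![0, 0, 0, 1, 0, 0, 0, 0, 0, 1, 0, 0, 0, 0, 1, 0, 0, 0, 1, 0, 0, 0] := by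
  have hv : ∀ i : Fin 22, dg i (atm 3 2 1 0)
      = (![0, 0, 0, 1, 0, 0, 0, 0, 0, 1, 0, 0, 0, 0, 1, 0, 0, 0, 1, 0, 0, 0] : Fin 22 → ℕ) i := by
    decide +kernel
  funext i
  unfold vec
  rw [hv i]
  fin_cases i <;> simp

theorem c23 (y : Pt) : Lam (vec (atm 3 2 1 0)) y
    = (y.1 0 + y.2 3) * (y.1 1 + y.2 2) * (y.1 2 + y.2 1) * (y.1 3 + y.2 0) := by
  rw [w23]
  simp only [Lam, Ph, pc, mc1, mc2, mc3, tau, Matrix.cons_val]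
  push_cast
  ring

def L24 : List (Fin 4 × Fin 4 × Fin 4 × Fin 4) :=
  [ (0, 1, 2, 3),
    (0, 1, 3, 2),
    (0, 2, 1, 3),
    (0, 2, 3, 1),
    (0, 3, 1, 2),
    (0, 3, 2, 1),
    (1, 0, 2, 3),
    (1, 0, 3, 2),
    (1, 2, 0, 3),
    (1, 2, 3, 0),
    (1, 3, 0, 2),
    (1, 3, 2, 0),
    (2, 0, 1, 3),
    (2, 0, 3, 1),
    (2, 1, 0, 3),
    (2, 1, 3, 0),
    (2, 3, 0, 1),
    (2, 3, 1, 0),
    (3, 0, 1, 2),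
    (3, 0, 2, 1),
    (3, 1, 0, 2),
    (3, 1, 2, 0),
    (3, 2, 0, 1),
    (3, 2, 1, 0) ]

theorem mem24 : ∀ σ : Perm (Fin 4), (σ 0, σ 1, σ 2, σ 3) ∈ L24 := by
  decide +kernel

theorem cases24 : ∀ σ : Perm (Fin 4),
    (σ 0 = 0 ∧ σ 1 = 1 ∧ σ 2 = 2 ∧ σ 3 = 3) ∨
    (σ 0 = 0 ∧ σ 1 = 1 ∧ σ 2 = 3 ∧ σ 3 = 2) ∨
    (σ 0 = 0 ∧ σ 1 = 2 ∧ σ 2 = 1 ∧ σ 3 = 3) ∨
    (σ 0 = 0 ∧ σ 1 = 2 ∧ σ 2 = 3 ∧ σ 3 = 1) ∨
    (σ 0 = 0 ∧ σ 1 = 3 ∧ σ 2 = 1 ∧ σ 3 = 2) ∨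
    (σ 0 = 0 ∧ σ 1 = 3 ∧ σ 2 = 2 ∧ σ 3 = 1) ∨
    (σ 0 = 1 ∧ σ 1 = 0 ∧ σ 2 = 2 ∧ σ 3 = 3) ∨
    (σ 0 = 1 ∧ σ 1 = 0 ∧ σ 2 = 3 ∧ σ 3 = 2) ∨
    (σ 0 = 1 ∧ σ 1 = 2 ∧ σ 2 = 0 ∧ σ 3 = 3) ∨
    (σ 0 = 1 ∧ σ 1 = 2 ∧ σ 2 = 3 ∧ σ 3 = 0) ∨
    (σ 0 = 1 ∧ σ 1 = 3 ∧ σ 2 = 0 ∧ σ 3 = 2) ∨
    (σ 0 = 1 ∧ σ 1 = 3 ∧ σ 2 = 2 ∧ σ 3 = 0) ∨
    (σ 0 = 2 ∧ σ 1 = 0 ∧ σ 2 = 1 ∧ σ 3 = 3) ∨
    (σ 0 = 2 ∧ σ 1 = 0 ∧ σ 2 = 3 ∧ σ 3 = 1) ∨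
    (σ 0 = 2 ∧ σ 1 = 1 ∧ σ 2 = 0 ∧ σ 3 = 3) ∨
    (σ 0 = 2 ∧ σ 1 = 1 ∧ σ 2 = 3 ∧ σ 3 = 0) ∨
    (σ 0 = 2 ∧ σ 1 = 3 ∧ σ 2 = 0 ∧ σ 3 = 1) ∨
    (σ 0 = 2 ∧ σ 1 = 3 ∧ σ 2 = 1 ∧ σ 3 = 0) ∨
    (σ 0 = 3 ∧ σ 1 = 0 ∧ σ 2 = 1 ∧ σ 3 = 2) ∨
    (σ 0 = 3 ∧ σ 1 = 0 ∧ σ 2 = 2 ∧ σ 3 = 1) ∨
    (σ 0 = 3 ∧ σ 1 = 1 ∧ σ 2 = 0 ∧ σ 3 = 2) ∨
    (σ 0 = 3 ∧ σ 1 = 1 ∧ σ 2 = 2 ∧ σ 3 = 0) ∨
    (σ 0 = 3 ∧ σ 1 = 2 ∧ σ 2 = 0 ∧ σ 3 = 1) ∨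
    (σ 0 = 3 ∧ σ 1 = 2 ∧ σ 2 = 1 ∧ σ 3 = 0) := by
  intro σ
  have h := mem24 σ
  simpa only [L24, List.mem_cons, Prod.mk.injEq, List.not_mem_nil, or_false] using h

theorem lam_perm (σ : Perm (Fin 4)) : Lam (vec (pk σ)) = Z σ := by
  funext y
  have hz : Z σ y = ∏ i, (y.1 i + y.2 (σ i)) := rfl
  rw [hz, Fin.prod_univ_four, show pk σ = atm (σ 0) (σ 1) (σ 2) (σ 3) from rfl]
  rcases cases24 σ with ⟨h0, h1, h2, h3⟩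
    | ⟨h0, h1, h2, h3⟩
    | ⟨h0, h1, h2, h3⟩
    | ⟨h0, h1, h2, h3⟩
    | ⟨h0, h1, h2, h3⟩
    | ⟨h0, h1, h2, h3⟩
    | ⟨h0, h1, h2, h3⟩
    | ⟨h0, h1, h2, h3⟩
    | ⟨h0, h1, h2, h3⟩
    | ⟨h0, h1, h2, h3⟩
    | ⟨h0, h1, h2, h3⟩
    | ⟨h0, h1, h2, h3⟩
    | ⟨h0, h1, h2, h3⟩
    | ⟨h0, h1, h2, h3⟩
    | ⟨h0, h1, h2, h3⟩
    | ⟨h0, h1, h2, h3⟩
    | ⟨h0, h1, h2, h3⟩
    | ⟨h0, h1, h2, h3⟩
    | ⟨h0, h1, h2, h3⟩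
    | ⟨h0, h1, h2, h3⟩
    | ⟨h0, h1, h2, h3⟩
    | ⟨h0, h1, h2, h3⟩
    | ⟨h0, h1, h2, h3⟩
    | ⟨h0, h1, h2, h3⟩
  · rw [h0, h1, h2, h3]
    exact c0 y
  · rw [h0, h1, h2, h3]
    exact c1 y
  · rw [h0, h1, h2, h3]
    exact c2 y
  · rw [h0, h1, h2, h3]
    exact c3 y
  · rw [h0, h1, h2, h3]
    exact c4 y
  · rw [h0, h1, h2, h3]
    exact c5 y
  · rw [h0, h1, h2, h3]
    exact c6 y
  · rw [h0, h1, h2, h3]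
    exact c7 y
  · rw [h0, h1, h2, h3]
    exact c8 y
  · rw [h0, h1, h2, h3]
    exact c9 y
  · rw [h0, h1, h2, h3]
    exact c10 y
  · rw [h0, h1, h2, h3]
    exact c11 y
  · rw [h0, h1, h2, h3]
    exact c12 y
  · rw [h0, h1, h2, h3]
    exact c13 y
  · rw [h0, h1, h2, h3]
    exact c14 y
  · rw [h0, h1, h2, h3]
    exact c15 y
  · rw [h0, h1, h2, h3]
    exact c16 y
  · rw [h0, h1, h2, h3]
    exact c17 y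
  · rw [h0, h1, h2, h3]
    exact c18 y
  · rw [h0, h1, h2, h3]
    exact c19 y
  · rw [h0, h1, h2, h3]
    exact c20 y
  · rw [h0, h1, h2, h3]
    exact c21 y
  · rw [h0, h1, h2, h3]
    exact c22 y
  · rw [h0, h1, h2, h3]
    exact c23 y

theorem tau_perm (σ : Perm (Fin 4)) : tau (vec (pk σ)) = 1 := by
  rw [show pk σ = atm (σ 0) (σ 1) (σ 2) (σ 3) from rfl]
  rcases cases24 σ with ⟨h0, h1, h2, h3⟩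
    | ⟨h0, h1, h2, h3⟩
    | ⟨h0, h1, h2, h3⟩
    | ⟨h0, h1, h2, h3⟩
    | ⟨h0, h1, h2, h3⟩
    | ⟨h0, h1, h2, h3⟩
    | ⟨h0, h1, h2, h3⟩
    | ⟨h0, h1, h2, h3⟩
    | ⟨h0, h1, h2, h3⟩
    | ⟨h0, h1, h2, h3⟩
    | ⟨h0, h1, h2, h3⟩
    | ⟨h0, h1, h2, h3⟩
    | ⟨h0, h1, h2, h3⟩
    | ⟨h0, h1, h2, h3⟩
    | ⟨h0, h1, h2, h3⟩
    | ⟨h0, h1, h2, h3⟩
    | ⟨h0, h1, h2, h3⟩
    | ⟨h0, h1, h2, h3⟩
    | ⟨h0, h1, h2, h3⟩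
    | ⟨h0, h1, h2, h3⟩
    | ⟨h0, h1, h2, h3⟩
    | ⟨h0, h1, h2, h3⟩
    | ⟨h0, h1, h2, h3⟩
    | ⟨h0, h1, h2, h3⟩
  · rw [h0, h1, h2, h3, w0]
    simp [tau]
  · rw [h0, h1, h2, h3, w1]
    simp [tau]
  · rw [h0, h1, h2, h3, w2]
    simp [tau]
  · rw [h0, h1, h2, h3, w3]
    simp [tau]
  · rw [h0, h1, h2, h3, w4]
    simp [tau]
  · rw [h0, h1, h2, h3, w5]
    simp [tau]
  · rw [h0, h1, h2, h3, w6]
    simp [tau]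
  · rw [h0, h1, h2, h3, w7]
    simp [tau]
  · rw [h0, h1, h2, h3, w8]
    simp [tau]
  · rw [h0, h1, h2, h3, w9]
    simp [tau]
  · rw [h0, h1, h2, h3, w10]
    simp [tau]
  · rw [h0, h1, h2, h3, w11]
    simp [tau]
  · rw [h0, h1, h2, h3, w12]
    simp [tau]
  · rw [h0, h1, h2, h3, w13]
    simp [tau]
  · rw [h0, h1, h2, h3, w14]
    simp [tau]
  · rw [h0, h1, h2, h3, w15]
    simp [tau]
  · rw [h0, h1, h2, h3, w16]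
    simp [tau]
  · rw [h0, h1, h2, h3, w17]
    simp [tau]
  · rw [h0, h1, h2, h3, w18]
    simp [tau]
  · rw [h0, h1, h2, h3, w19]
    simp [tau]
  · rw [h0, h1, h2, h3, w20]
    simp [tau]
  · rw [h0, h1, h2, h3, w21]
    simp [tau]
  · rw [h0, h1, h2, h3, w22]
    simp [tau]
  · rw [h0, h1, h2, h3, w23]
    simp [tau]

end Pool.Agent.Helper2.GV
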