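import Pool.Agent.Helper2.GV.D1
import Pool.Agent.Helper2.GV.D2
import Pool.Agent.Helper2.GV.D3
import Pool.Agent.Helper2.GV.D4
import Pool.Agent.Helper2.GV.D5
import Pool.Agent.Helper2.GV.Atoms
import Pool.Agent.Helper2.GV.LamM
import Pool.Agent.Helper2.GV.Exc

/-!
Project GV: assembly.
-/

set_option autoImplicit false

namespace Pool.Agent.Helper2.GV

open Matrix Complex Equiv Pool.Agent.Helper2.GM

theorem atoms_list : ∀ t : Fin 4 × Fin 4 × Fin 4 × Fin 4,
    t.2.1 ≠ t.1 ∧ t.2.2.1 ≠ t.1 ∧ t.2.2.2 ≠ t.1 →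
      (genF Z1 P1 N1).elem (atm t.1 t.2.1 t.2.2.1 t.2.2.2) = true := by
  decide +kernel

theorem link1 : chkLink BT1 190 (genF Z2 P2 N2) = true := by decide +kernel

theorem link2 : chkLink BT2 272 (genF Z3 P3 N3) = true := by decide +kernel

theorem link3 : chkLink BT3 282 (genF Z4 P4 N4) = true := by decide +kernel

theorem link4 : chkLink BT4 180 (genF Z5 P5 N5) = true := by decide +kernel

theorem ell_xU1 (U : M4) (hU : U ∈ unitaryGroup (Fin 4) ℂ) : ell 4 10 16 0 1 (xU U) = 0 := by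
  have h := colsum_mm' U hU 0 1 (by decide)
  change mm U 0 1 0 1 + mm U 0 2 0 1 + mm U 0 3 0 1 - P U 0 0 - P U 0 1 = 0
  linarith

theorem ell_xU2 (U : M4) (hU : U ∈ unitaryGroup (Fin 4) ℂ) : ell 9 15 21 2 3 (xU U) = 0 := by
  have h := colsum_mm' U hU 2 3 (by decide)
  change mm U 0 1 2 3 + mm U 0 2 2 3 + mm U 0 3 2 3 - P U 0 2 - P U 0 3 = 0
  linarith

theorem ell_xU3 (U : M4) (hU : U ∈ unitaryGroup (Fin 4) ℂ) : ell 5 11 17 0 2 (xU U) = 0 := by
  have h := colsum_mm' U hU 0 2 (by decide)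
  change mm U 0 1 0 2 + mm U 0 2 0 2 + mm U 0 3 0 2 - P U 0 0 - P U 0 2 = 0
  linarith

theorem ell_xU4 (U : M4) (hU : U ∈ unitaryGroup (Fin 4) ℂ) : ell 8 14 20 1 3 (xU U) = 0 := by
  have h := colsum_mm' U hU 1 3 (by decide)
  change mm U 0 1 1 3 + mm U 0 2 1 3 + mm U 0 3 1 3 - P U 0 1 - P U 0 3 = 0
  linarith

theorem ell_xU5 (U : M4) (hU : U ∈ unitaryGroup (Fin 4) ℂ) : ell 6 12 18 0 3 (xU U) = 0 := by
  have h := colsum_mm' U hU 0 3 (by decide)
  change mm U 0 1 0 3 + mm U 0 2 0 3 + mm U 0 3 0 3 - P U 0 0 - P U 0 3 = 0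
  linarith

theorem xU_final (U : M4) (hU : U ∈ unitaryGroup (Fin 4) ℂ) :
    InCn (genG BT5 72).toFinset (xU U) := by
  have h0 : InCn (genF Z1 P1 N1).toFinset (xU U) := by
    refine (xU_atoms U hU).trans fun X hX => InCn.single ?_
    unfold atoms at hX
    rw [Finset.mem_image] at hX
    obtain ⟨t, ht, rfl⟩ := hX
    rw [List.mem_toFinset]
    exact List.elem_iff.1 (atoms_list t (Finset.mem_filter.1 ht).2)
  have h1 := step_chk 4 10 16 0 1 BT1 190 Z1 P1 N1 c1Z c1P c1N c1T _ h0 (ell_xU1 U hU)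
  have h1' := link _ _ _ link1 _ h1
  have h2 := step_chk 9 15 21 2 3 BT2 272 Z2 P2 N2 c2Z c2P c2N c2T _ h1' (ell_xU2 U hU)
  have h2' := link _ _ _ link2 _ h2
  have h3 := step_chk 5 11 17 0 2 BT3 282 Z3 P3 N3 c3Z c3P c3N c3T _ h2' (ell_xU3 U hU)
  have h3' := link _ _ _ link3 _ h3
  have h4 := step_chk 8 14 20 1 3 BT4 180 Z4 P4 N4 c4Z c4P c4N c4T _ h3' (ell_xU4 U hU)
  have h4' := link _ _ _ link4 _ h4
  exact step_chk 6 12 18 0 3 BT5 72 Z5 P5 N5 c5Z c5P c5N c5T _ h4' (ell_xU5 U hU)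

theorem classify : ∀ t : Fin 72, (∃ σ : Perm (Fin 4), getT BT5 t = pk σ) ∨
    (∃ h : Perm (Fin 4), getT BT5 t + pk h = pk (h * swap 0 1) + pk (h * swap 0 2)
      + pk (h * swap 0 3) + pk (h * cc)) ∨
    (∃ h : Perm (Fin 4), getT BT5 t + pk h = pk (h * swap 0 1) + pk (h * swap 0 2)
      + pk (h * swap 0 3) + pk (h * cc')) := by
  decide +kernel

theorem small_pk' : ∀ σ : Perm (Fin 4), smallB (pk σ) = true := by
  decide +kernel

theorem small_pk (σ : Perm (Fin 4)) : small (pk σ) := smallB_small (small_pk' σ)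

theorem vec_exc (X : ℕ) (hX : small X) (c h : Perm (Fin 4))
    (e : X + pk h = pk (h * swap 0 1) + pk (h * swap 0 2) + pk (h * swap 0 3) + pk (h * c)) :
    vec X + vec (pk h) = vec (pk (h * swap 0 1)) + vec (pk (h * swap 0 2))
      + vec (pk (h * swap 0 3)) + vec (pk (h * c)) := by
  have h1 := fun i => cert X (pk h) 1 1 1 [(1, pk (h * swap 0 1)), (1, pk (h * swap 0 2)),
    (1, pk (h * swap 0 3)), (1, pk (h * c))] hX (small_pk h) (by
      intro t ht
      simp only [List.mem_cons, List.not_mem_nil, or_false] at ht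
      rcases ht with rfl | rfl | rfl | rfl <;> exact small_pk _) (by norm_num) (by norm_num) (by
      simp only [List.map_cons, List.map_nil, List.sum_cons, List.sum_nil]
      omega) i
  funext i
  have h2 := h1 i
  simp only [List.map_cons, List.map_nil, List.sum_cons, List.sum_nil, Nat.cast_one,
    one_mul] at h2
  simp only [Pi.add_apply]
  linarith

/-- combinations of the 24 products and the 48 exceptional points -/
def Q3 (t : ℝ) (f : Pt → ℂ) : Prop :=
  ∃ w u v : Perm (Fin 4) → ℝ, (∀ σ, 0 ≤ w σ) ∧ (∀ σ, 0 ≤ u σ) ∧ (∀ σ, 0 ≤ v σ) ∧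
    ∑ σ, w σ + ∑ σ, u σ + ∑ σ, v σ = t ∧
    f = fun x => ∑ σ, (w σ : ℂ) * Z σ x + ∑ σ, (u σ : ℂ) * VV cc σ x
      + ∑ σ, (v σ : ℂ) * VV cc' σ x

theorem Q3.zero : Q3 0 (fun _ => 0) := by
  refine ⟨fun _ => 0, fun _ => 0, fun _ => 0, fun _ => le_rfl, fun _ => le_rfl, fun _ => le_rfl,
    by simp, ?_⟩
  funext x
  simp

theorem Q3.add {s t : ℝ} {f g : Pt → ℂ} (hf : Q3 s f) (hg : Q3 t g) :
    Q3 (s + t) (fun x => f x + g x) := by
  obtain ⟨w, u, v, h1, h2, h3, h4, h5⟩ := hf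
  obtain ⟨w', u', v', h1', h2', h3', h4', h5'⟩ := hg
  refine ⟨fun σ => w σ + w' σ, fun σ => u σ + u' σ, fun σ => v σ + v' σ,
    fun σ => add_nonneg (h1 σ) (h1' σ), fun σ => add_nonneg (h2 σ) (h2' σ),
    fun σ => add_nonneg (h3 σ) (h3' σ), ?_, ?_⟩
  · simp only [Finset.sum_add_distrib]
    linarith
  · funext x
    rw [h5, h5']
    simp only [Complex.ofReal_add, add_mul, Finset.sum_add_distrib]
    ring

theorem Q3.smul {t : ℝ} {f : Pt → ℂ} (r : ℝ) (hr : 0 ≤ r) (hf : Q3 t f) :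
    Q3 (r * t) (fun x => (r : ℂ) * f x) := by
  obtain ⟨w, u, v, h1, h2, h3, h4, h5⟩ := hf
  refine ⟨fun σ => r * w σ, fun σ => r * u σ, fun σ => r * v σ,
    fun σ => mul_nonneg hr (h1 σ), fun σ => mul_nonneg hr (h2 σ),
    fun σ => mul_nonneg hr (h3 σ), ?_, ?_⟩
  · simp only [← Finset.mul_sum]
    rw [← h4]
    ring
  · funext x
    rw [h5]
    simp only [Complex.ofReal_mul, mul_assoc, ← Finset.mul_sum]
    ring

theorem Q3.perm (σ : Perm (Fin 4)) : Q3 1 (Z σ) := by
  refine ⟨Pi.single σ 1, fun _ => 0, fun _ => 0, fun τ => ?_, fun _ => le_rfl, fun _ => le_rfl,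
    ?_, ?_⟩
  · by_cases h : τ = σ
    · subst h
      rw [Pi.single_eq_same]
      exact zero_le_one
    · rw [Pi.single_eq_of_ne h]
  · rw [Finset.sum_pi_single']
    simp
  · funext x
    rw [Finset.sum_eq_single σ]
    · rw [Pi.single_eq_same]
      simp
    · intro τ _ h
      rw [Pi.single_eq_of_ne h]
      simp
    · intro h
      exact absurd (Finset.mem_univ _) h

theorem Q3.exc (h : Perm (Fin 4)) : Q3 1 (VV cc h) := by
  refine ⟨fun _ => 0, Pi.single h 1, fun _ => 0, fun _ => le_rfl, fun τ => ?_, fun _ => le_rfl,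
    ?_, ?_⟩
  · by_cases h' : τ = h
    · subst h'
      rw [Pi.single_eq_same]
      exact zero_le_one
    · rw [Pi.single_eq_of_ne h']
  · rw [Finset.sum_pi_single']
    simp
  · funext x
    rw [Finset.sum_eq_single (s := Finset.univ) (f := fun σ =>
      ((Pi.single h (1 : ℝ) : Perm (Fin 4) → ℝ) σ : ℂ) * VV cc σ x) h]
    · rw [Pi.single_eq_same]
      simp
    · intro τ _ h'
      rw [Pi.single_eq_of_ne h']
      simp
    · intro h'
      exact absurd (Finset.mem_univ _) h'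

theorem Q3.exc' (h : Perm (Fin 4)) : Q3 1 (VV cc' h) := by
  refine ⟨fun _ => 0, fun _ => 0, Pi.single h 1, fun _ => le_rfl, fun _ => le_rfl, fun τ => ?_,
    ?_, ?_⟩
  · by_cases h' : τ = h
    · subst h'
      rw [Pi.single_eq_same]
      exact zero_le_one
    · rw [Pi.single_eq_of_ne h']
  · rw [Finset.sum_pi_single']
    simp
  · funext x
    rw [Finset.sum_eq_single (s := Finset.univ) (f := fun σ =>
      ((Pi.single h (1 : ℝ) : Perm (Fin 4) → ℝ) σ : ℂ) * VV cc' σ x) h]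
    · rw [Pi.single_eq_same]
      simp
    · intro τ _ h'
      rw [Pi.single_eq_of_ne h']
      simp
    · intro h'
      exact absurd (Finset.mem_univ _) h'

theorem tau_exc (X : ℕ) (c h : Perm (Fin 4))
    (e : vec X + vec (pk h) = vec (pk (h * swap 0 1)) + vec (pk (h * swap 0 2))
      + vec (pk (h * swap 0 3)) + vec (pk (h * c))) : tau (vec X) = 3 := by
  have h1 := congrArg tau e
  simp only [tau_add, tau_perm] at h1
  linarith

theorem lam_exc (X : ℕ) (c h : Perm (Fin 4))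
    (e : vec X + vec (pk h) = vec (pk (h * swap 0 1)) + vec (pk (h * swap 0 2))
      + vec (pk (h * swap 0 3)) + vec (pk (h * c))) :
    Lam (vec X) = fun x => ((3 : ℝ) : ℂ) * VV c h x := by
  funext x
  have h1 := congrFun (congrArg Lam e) x
  simp only [lam_add, lam_perm] at h1
  unfold VV
  push_cast
  linear_combination h1

theorem Q3.gen (X : ℕ) (hX : X ∈ (genG BT5 72).toFinset) : Q3 (tau (vec X)) (Lam (vec X)) := by
  rw [List.mem_toFinset] at hX
  unfold genG at hX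
  rw [List.mem_map] at hX
  obtain ⟨t, ht, rfl⟩ := hX
  have ht' := List.mem_range.1 ht
  have hsm : small (getT BT5 t) := by
    have h := c5T
    unfold chkT at h
    rw [List.all_eq_true] at h
    exact smallB_small (h t ht)
  rcases classify ⟨t, ht'⟩ with ⟨σ, h⟩ | ⟨h, e⟩ | ⟨h, e⟩
  · have h' : getT BT5 t = pk σ := h
    rw [h', tau_perm, lam_perm]
    exact Q3.perm σ
  · have e1 := vec_exc (getT BT5 t) hsm cc h e
    rw [tau_exc _ _ _ e1, lam_exc _ _ _ e1]
    have := Q3.smul 3 (by norm_num) (Q3.exc h)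
    rw [mul_one] at this
    exact this
  · have e1 := vec_exc (getT BT5 t) hsm cc' h e
    rw [tau_exc _ _ _ e1, lam_exc _ _ _ e1]
    have := Q3.smul 3 (by norm_num) (Q3.exc' h)
    rw [mul_one] at this
    exact this

theorem Q3.of_sum (F : Finset ℕ) (c : ℕ → ℝ) (hc : ∀ X, 0 ≤ c X)
    (hF : ∀ X ∈ F, Q3 (tau (vec X)) (Lam (vec X))) :
    Q3 (tau (∑ X ∈ F, c X • vec X)) (Lam (∑ X ∈ F, c X • vec X)) := by
  classical
  induction F using Finset.induction_on with
  | empty =>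
    have h1 : tau (0 : E) = 0 := by
      have := tau_smul 0 (0 : E)
      rwa [zero_smul, zero_mul] at this
    have h2 : Lam (0 : E) = fun _ => 0 := by
      have := lam_smul 0 (0 : E)
      rw [zero_smul] at this
      rw [this]
      funext x
      simp
    rw [Finset.sum_empty, h1, h2]
    exact Q3.zero
  | insert a s ha ih =>
    rw [Finset.sum_insert ha, tau_add, lam_add, tau_smul, lam_smul]
    exact Q3.add (Q3.smul (c a) (hc a) (hF a (Finset.mem_insert_self a s)))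
      (ih fun X hX => hF X (Finset.mem_insert_of_mem hX))

/-- **Every unitary matrix.** -/
theorem DD_Q3 (U : M4) (hU : U ∈ unitaryGroup (Fin 4) ℂ) : Q3 1 (fun y => DD U y.1 y.2) := by
  obtain ⟨c, hc, hx⟩ := xU_final U hU
  have h := Q3.of_sum (genG BT5 72).toFinset c hc fun X hX => Q3.gen X hX
  rw [← hx, tau_U U hU] at h
  have e : Lam (xU U) = fun y => DD U y.1 y.2 := by
    funext y
    exact lam_U U hU y
  rwa [e] at h

end Pool.Agent.Helper2.GV
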