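import Pool.Agent.Helper2.GV.Defs

/-!
Project GV, module Dig: an identity between packed vectors gives the identity between the vectors.

Proof.  `X = ∑ j < 22, dg j X * 256^j` for `X < 256^22` (`small`).  Both sides of `h` are
`∑ j < 22, x j * 256^j` with `x j < 256` (`x j ≤ 2 * 100`), and the digits of such a sum are the
`x j` (induction, or `Nat.ofDigits_inj_of_len_eq`).
-/

set_option autoImplicit false

namespace Pool.Agent.Helper2.GV

/-- all digits are at most `2` -/
def small (X : ℕ) : Prop := X < 256 ^ 22 ∧ ∀ k < 22, dg k X ≤ 2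

private theorem Dig_rep : ∀ (n X : ℕ), X < 256 ^ n →
    X = ∑ j ∈ Finset.range n, dg j X * 256 ^ j := by
  intro n
  induction n with
  | zero =>
    intro X hX
    rw [pow_zero] at hX
    rw [Finset.sum_range_zero]
    omega
  | succ n ih =>
    intro X hX
    have h1 : X / 256 < 256 ^ n := by
      rw [pow_succ] at hX
      exact Nat.div_lt_of_lt_mul (by rw [mul_comm]; exact hX)
    have h2 := ih (X / 256) h1
    rw [Finset.sum_range_succ']
    have h3 : ∀ j, dg (j + 1) X = dg j (X / 256) := by
      intro j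
      unfold dg
      rw [Nat.div_div_eq_div_mul, pow_succ, mul_comm (256 ^ j) 256]
    have h4 : ∑ j ∈ Finset.range n, dg (j + 1) X * 256 ^ (j + 1) =
        256 * ∑ j ∈ Finset.range n, dg j (X / 256) * 256 ^ j := by
      rw [Finset.mul_sum]
      refine Finset.sum_congr rfl fun j _ => ?_
      rw [h3, pow_succ]
      ring
    rw [h4, ← h2]
    have h5 : dg 0 X = X % 256 := by
      unfold dg
      rw [pow_zero, Nat.div_one]
    rw [h5, pow_zero, mul_one]
    exact (Nat.div_add_mod X 256).symm

private theorem Dig_inj : ∀ (n : ℕ) (x y : ℕ → ℕ), (∀ j < n, x j < 256) → (∀ j < n, y j < 256) →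
    ∑ j ∈ Finset.range n, x j * 256 ^ j = ∑ j ∈ Finset.range n, y j * 256 ^ j →
    ∀ j < n, x j = y j := by
  intro n
  induction n with
  | zero =>
    intro x y _ _ _ j hj
    exact absurd hj (Nat.not_lt_zero j)
  | succ n ih =>
    intro x y hx hy h
    have h4 : ∀ z : ℕ → ℕ, ∑ j ∈ Finset.range (n + 1), z j * 256 ^ j =
        256 * ∑ j ∈ Finset.range n, z (j + 1) * 256 ^ j + z 0 := by
      intro z
      rw [Finset.sum_range_succ', pow_zero, mul_one, Finset.mul_sum]
      congr 1
      refine Finset.sum_congr rfl fun j _ => ?_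
      rw [pow_succ]
      ring
    rw [h4, h4] at h
    have hx0 := hx 0 (Nat.succ_pos n)
    have hy0 := hy 0 (Nat.succ_pos n)
    generalize hA : ∑ j ∈ Finset.range n, x (j + 1) * 256 ^ j = A at h
    generalize hB : ∑ j ∈ Finset.range n, y (j + 1) * 256 ^ j = B at h
    have h0 : x 0 = y 0 := by omega
    have hAB : A = B := by omega
    rw [← hA, ← hB] at hAB
    have h5 := ih (fun j => x (j + 1)) (fun j => y (j + 1)) (fun j hj => hx (j + 1) (by omega))
      (fun j hj => hy (j + 1) (by omega)) hAB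
    intro j hj
    rcases j with _ | j
    · exact h0
    · exact h5 j (by omega)

private theorem Dig_list (ts : List (ℕ × ℕ)) (hts : ∀ t ∈ ts, small t.2) :
    (ts.map fun t => t.1 * t.2).sum =
      ∑ j ∈ Finset.range 22, (ts.map fun t => t.1 * dg j t.2).sum * 256 ^ j := by
  induction ts with
  | nil => simp
  | cons t ts ih =>
    rw [List.map_cons, List.sum_cons, ih fun s hs => hts s (List.mem_cons_of_mem _ hs)]
    have h1 : t.1 * t.2 = ∑ j ∈ Finset.range 22, t.1 * dg j t.2 * 256 ^ j := by
      conv_lhs => rw [Dig_rep 22 t.2 (hts t List.mem_cons_self).1]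
      rw [Finset.mul_sum]
      exact Finset.sum_congr rfl fun j _ => by rw [mul_assoc]
    rw [h1, ← Finset.sum_add_distrib]
    refine Finset.sum_congr rfl fun j _ => ?_
    rw [List.map_cons, List.sum_cons, add_mul]

private theorem Dig_le (ts : List (ℕ × ℕ)) (hts : ∀ t ∈ ts, small t.2) (j : ℕ) (hj : j < 22) :
    (ts.map fun t => t.1 * dg j t.2).sum ≤ (ts.map Prod.fst).sum * 2 := by
  induction ts with
  | nil => simp
  | cons t ts ih =>
    rw [List.map_cons, List.sum_cons, List.map_cons, List.sum_cons, add_mul]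
    exact add_le_add (Nat.mul_le_mul_left _ ((hts t List.mem_cons_self).2 j hj))
      (ih fun s hs => hts s (List.mem_cons_of_mem _ hs))

theorem cert (X Y d li lj : ℕ) (ts : List (ℕ × ℕ)) (hX : small X) (hY : small Y)
    (hts : ∀ t ∈ ts, small t.2) (hd : d * (lj + li) ≤ 100) (hc : (ts.map Prod.fst).sum ≤ 100)
    (h : d * (lj * X + li * Y) = (ts.map fun t => t.1 * t.2).sum) (i : Fin 22) :
    (d : ℝ) * ((lj : ℝ) * vec X i + (li : ℝ) * vec Y i)
      = (ts.map fun t => (t.1 : ℝ) * vec t.2 i).sum := by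
  have hlin : ∑ j ∈ Finset.range 22, d * (lj * dg j X + li * dg j Y) * 256 ^ j =
      ∑ j ∈ Finset.range 22, (ts.map fun t => t.1 * dg j t.2).sum * 256 ^ j := by
    rw [← Dig_list ts hts, ← h]
    conv_rhs => rw [Dig_rep 22 X hX.1, Dig_rep 22 Y hY.1]
    rw [Finset.mul_sum, Finset.mul_sum, ← Finset.sum_add_distrib, Finset.mul_sum]
    refine Finset.sum_congr rfl fun j _ => ?_
    ring
  have hd1 : ∀ j < 22, d * (lj * dg j X + li * dg j Y) < 256 := by
    intro j hj
    have h1 := hX.2 j hj
    have h2 := hY.2 j hj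
    have h3 : lj * dg j X + li * dg j Y ≤ (lj + li) * 2 := by
      rw [add_mul]
      exact add_le_add (Nat.mul_le_mul_left _ h1) (Nat.mul_le_mul_left _ h2)
    have h4 : d * (lj * dg j X + li * dg j Y) ≤ d * ((lj + li) * 2) := Nat.mul_le_mul_left _ h3
    have h5 : d * ((lj + li) * 2) = d * (lj + li) * 2 := by ring
    omega
  have hd2 : ∀ j < 22, (ts.map fun t => t.1 * dg j t.2).sum < 256 := by
    intro j hj
    have h1 := Dig_le ts hts j hj
    omega
  have hfin := Dig_inj 22 _ _ hd1 hd2 hlin (i : ℕ) i.isLt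
  have hcast : ((ts.map fun t => t.1 * dg (i : ℕ) t.2).sum : ℝ) =
      (ts.map fun t => (t.1 : ℝ) * vec t.2 i).sum := by
    clear hlin hd1 hd2 hfin h hc hts
    induction ts with
    | nil => simp
    | cons t ts ih =>
      rw [List.map_cons, List.sum_cons, List.map_cons, List.sum_cons]
      rw [Nat.cast_add, ih, Nat.cast_mul]
      rfl
  rw [← hcast, ← hfin]
  unfold vec
  push_cast
  ring

end Pool.Agent.Helper2.GV
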