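import Pool.Agent.Helper2.GV.StepM
import Pool.Agent.Helper2.GV.Dig

/-!
Project GV: the certificate of one elimination step.
-/

set_option autoImplicit false

namespace Pool.Agent.Helper2.GV

/-- the linear form of an equation -/
noncomputable def ell (i1 i2 i3 j1 j2 : Fin 22) : E →ₗ[ℝ] ℝ :=
  (LinearMap.proj (R := ℝ) (φ := fun _ : Fin 22 => ℝ) i1)
    + (LinearMap.proj (R := ℝ) (φ := fun _ : Fin 22 => ℝ) i2)
    + (LinearMap.proj (R := ℝ) (φ := fun _ : Fin 22 => ℝ) i3)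
    - (LinearMap.proj (R := ℝ) (φ := fun _ : Fin 22 => ℝ) j1)
    - (LinearMap.proj (R := ℝ) (φ := fun _ : Fin 22 => ℝ) j2)

def posN (i1 i2 i3 X : ℕ) : ℕ := dg i1 X + dg i2 X + dg i3 X

def negN (j1 j2 X : ℕ) : ℕ := dg j1 X + dg j2 X

def getT (BT t : ℕ) : ℕ := BT / 2 ^ (176 * t) % 2 ^ 176

def smallB (X : ℕ) : Bool :=
  decide (X < 256 ^ 22) && (List.range 22).all fun k => decide (dg k X ≤ 2)

/-- decode a list of (coefficient, index) -/
def dec : ℕ → ℕ → List (ℕ × ℕ)
  | 0, _ => []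
  | n + 1, code =>
    if code % 4 = 0 then [] else (code % 4, code / 4 % 512) :: dec n (code / 2048)

def chkPair (BT nT X li Y lj code : ℕ) : Bool :=
  decide (0 < code % 4) && decide (code % 4 * (lj + li) ≤ 100) &&
    ((dec 9 (code / 4)).all fun t => decide (t.2 < nT)) &&
    decide (((dec 9 (code / 4)).map Prod.fst).sum ≤ 100) &&
    decide (code % 4 * (lj * X + li * Y) = ((dec 9 (code / 4)).map fun t => t.1 * getT BT t.2).sum)

def chkRow (BT nT X li : ℕ) : List (ℕ × ℕ) → ℕ → Bool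
  | [], _ => true
  | (Y, lj) :: r, C => chkPair BT nT X li Y lj (C % 2 ^ 104) && chkRow BT nT X li r (C / 2 ^ 104)

def chkZ (i1 i2 i3 j1 j2 BT nT : ℕ) (Z : List (ℕ × ℕ)) : Bool :=
  Z.all fun z => decide (posN i1 i2 i3 z.1 = negN j1 j2 z.1) && decide (z.2 < nT) &&
    decide (getT BT z.2 = z.1)

def chkP (i1 i2 i3 j1 j2 BT nT : ℕ) (N : List (ℕ × ℕ)) (P : List (ℕ × ℕ × ℕ)) : Bool :=
  P.all fun p => decide (posN i1 i2 i3 p.1 = negN j1 j2 p.1 + p.2.1) && decide (0 < p.2.1) &&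
    smallB p.1 && chkRow BT nT p.1 p.2.1 N p.2.2

def chkN (i1 i2 i3 j1 j2 : ℕ) (N : List (ℕ × ℕ)) : Bool :=
  N.all fun y => decide (negN j1 j2 y.1 = posN i1 i2 i3 y.1 + y.2) && decide (0 < y.2) &&
    smallB y.1

def chkT (BT nT : ℕ) : Bool := (List.range nT).all fun t => smallB (getT BT t)

/-- the generators before the step -/
def genF (Z : List (ℕ × ℕ)) (P : List (ℕ × ℕ × ℕ)) (N : List (ℕ × ℕ)) : List ℕ :=
  Z.map Prod.fst ++ (P.map Prod.fst ++ N.map Prod.fst)

/-- the generators after the step -/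
def genG (BT nT : ℕ) : List ℕ := (List.range nT).map (getT BT)

def chkLink (BT nT : ℕ) (L : List ℕ) : Bool := (List.range nT).all fun t => L.elem (getT BT t)

theorem smallB_small {X : ℕ} (h : smallB X = true) : small X := by
  unfold smallB at h
  rw [Bool.and_eq_true, decide_eq_true_eq, List.all_eq_true] at h
  refine ⟨h.1, fun k hk => ?_⟩
  have := h.2 k (List.mem_range.2 hk)
  exact of_decide_eq_true this

theorem ell_vec (i1 i2 i3 j1 j2 : Fin 22) (X : ℕ) :
    ell i1 i2 i3 j1 j2 (vec X) = (posN i1 i2 i3 X : ℝ) - (negN j1 j2 X : ℝ) := by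
  unfold ell posN negN vec
  simp only [LinearMap.sub_apply, LinearMap.add_apply, LinearMap.proj_apply]
  push_cast
  ring

theorem InCn.list_sum {F : Finset ℕ} (ts : List (ℕ × ℕ)) (h : ∀ t ∈ ts, InCn F (vec t.2)) :
    InCn F (fun i => (ts.map fun t => (t.1 : ℝ) * vec t.2 i).sum) := by
  induction ts with
  | nil => exact InCn.zero F
  | cons a r ih =>
    have h1 := InCn.add (InCn.smul (a.1 : ℝ) (Nat.cast_nonneg _) (h a (List.mem_cons_self ..)))
      (ih fun t ht => h t (List.mem_cons_of_mem _ ht))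
    exact h1

theorem chkPair_mem (BT nT X li Y lj code : ℕ) (hX : small X) (hY : small Y)
    (hT : chkT BT nT = true) (h : chkPair BT nT X li Y lj code = true) :
    InCn (genG BT nT).toFinset ((lj : ℝ) • vec X + (li : ℝ) • vec Y) := by
  unfold chkPair at h
  simp only [Bool.and_eq_true, decide_eq_true_eq, List.all_eq_true] at h
  obtain ⟨⟨⟨⟨h1, h2⟩, h3⟩, h4⟩, h5⟩ := h
  have hsm : ∀ t, t < nT → small (getT BT t) := by
    intro t ht
    unfold chkT at hT
    rw [List.all_eq_true] at hT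
    exact smallB_small (hT t (List.mem_range.2 ht))
  set ts : List (ℕ × ℕ) := (dec 9 (code / 4)).map fun t => (t.1, getT BT t.2) with hts
  have h6 := fun i => cert X Y (code % 4) li lj ts hX hY (by
      intro t ht
      rw [hts, List.mem_map] at ht
      obtain ⟨s, hs, rfl⟩ := ht
      exact hsm _ (h3 s hs)) h2 (by
      rw [hts, List.map_map]
      exact h4) (by
      rw [hts, List.map_map, h5]
      rfl) i
  have h7 : InCn (genG BT nT).toFinset (fun i => (ts.map fun t => (t.1 : ℝ) * vec t.2 i).sum) := by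
    apply InCn.list_sum
    intro t ht
    rw [hts, List.mem_map] at ht
    obtain ⟨s, hs, rfl⟩ := ht
    apply InCn.single
    rw [List.mem_toFinset]
    unfold genG
    rw [List.mem_map]
    exact ⟨s.2, List.mem_range.2 (h3 s hs), rfl⟩
  have hd : (0 : ℝ) < ((code % 4 : ℕ) : ℝ) := by exact_mod_cast h1
  have h8 := InCn.smul (((code % 4 : ℕ) : ℝ)⁻¹) (inv_nonneg.2 hd.le) h7
  convert h8 using 1
  funext i
  rw [Pi.add_apply, Pi.smul_apply, Pi.smul_apply, Pi.smul_apply, smul_eq_mul, smul_eq_mul,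
    smul_eq_mul, ← h6 i, ← mul_assoc, inv_mul_cancel₀ hd.ne', one_mul]

theorem chkRow_mem (BT nT X li : ℕ) (N : List (ℕ × ℕ)) (C : ℕ)
    (h : chkRow BT nT X li N C = true) :
    ∀ y ∈ N, ∃ code, chkPair BT nT X li y.1 y.2 code = true := by
  induction N generalizing C with
  | nil => intro y hy; exact absurd hy (List.not_mem_nil)
  | cons a r ih =>
    obtain ⟨Y, lj⟩ := a
    unfold chkRow at h
    rw [Bool.and_eq_true] at h
    intro y hy
    rcases List.mem_cons.1 hy with rfl | hy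
    · exact ⟨_, h.1⟩
    · exact ih _ h.2 y hy

/-- one elimination step -/
theorem step_chk (i1 i2 i3 j1 j2 : Fin 22) (BT nT : ℕ) (Z : List (ℕ × ℕ))
    (P : List (ℕ × ℕ × ℕ)) (N : List (ℕ × ℕ))
    (hZ : chkZ i1 i2 i3 j1 j2 BT nT Z = true) (hP : chkP i1 i2 i3 j1 j2 BT nT N P = true)
    (hN : chkN i1 i2 i3 j1 j2 N = true) (hT : chkT BT nT = true) (x : E)
    (hx : InCn (genF Z P N).toFinset x) (hl : ell i1 i2 i3 j1 j2 x = 0) :
    InCn (genG BT nT).toFinset x := by
  unfold chkZ at hZ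
  unfold chkP at hP
  unfold chkN at hN
  simp only [List.all_eq_true, Bool.and_eq_true, decide_eq_true_eq] at hZ hP hN
  have hmem : ∀ X ∈ (genF Z P N).toFinset, (∃ z ∈ Z, z.1 = X) ∨ (∃ p ∈ P, p.1 = X) ∨
      ∃ y ∈ N, y.1 = X := by
    intro X hX
    rw [List.mem_toFinset] at hX
    unfold genF at hX
    simp only [List.mem_append, List.mem_map] at hX
    exact hX
  have hzero : ∀ z ∈ Z, ell i1 i2 i3 j1 j2 (vec z.1) = 0 := by
    intro z hz
    rw [ell_vec, (hZ z hz).1.1, sub_self]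
  have hpos : ∀ p ∈ P, ell i1 i2 i3 j1 j2 (vec p.1) = (p.2.1 : ℝ) := by
    intro p hp
    rw [ell_vec, (hP p hp).1.1.1]
    push_cast
    ring
  have hneg : ∀ y ∈ N, ell i1 i2 i3 j1 j2 (vec y.1) = -(y.2 : ℝ) := by
    intro y hy
    rw [ell_vec, (hN y hy).1.1]
    push_cast
    ring
  refine step _ _ (ell i1 i2 i3 j1 j2) ?_ ?_ x hx hl
  · intro X hX h0
    rcases hmem X hX with ⟨z, hz, rfl⟩ | ⟨p, hp, rfl⟩ | ⟨y, hy, rfl⟩
    · apply InCn.single
      rw [List.mem_toFinset]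
      unfold genG
      rw [List.mem_map]
      exact ⟨z.2, List.mem_range.2 (hZ z hz).1.2, (hZ z hz).2⟩
    · rw [hpos p hp] at h0
      have h1 := (hP p hp).1.1.2
      have h2 : (0 : ℝ) < (p.2.1 : ℝ) := by exact_mod_cast h1
      exact absurd h0 h2.ne'
    · rw [hneg y hy] at h0
      have h1 := (hN y hy).1.2
      have h2 : (0 : ℝ) < (y.2 : ℝ) := by exact_mod_cast h1
      linarith
  · intro X hX Y hY h1 h2
    rcases hmem X hX with ⟨z, hz, rfl⟩ | ⟨p, hp, rfl⟩ | ⟨y, hy, rfl⟩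
    · rw [hzero z hz] at h1
      exact absurd h1 (lt_irrefl _)
    · rcases hmem Y hY with ⟨z, hz, rfl⟩ | ⟨p', hp', rfl⟩ | ⟨y, hy, rfl⟩
      · rw [hzero z hz] at h2
        exact absurd h2 (lt_irrefl _)
      · rw [hpos p' hp'] at h2
        have h3 : (0 : ℝ) ≤ (p'.2.1 : ℝ) := Nat.cast_nonneg _
        linarith
      · rw [hpos p hp, hneg y hy, neg_neg]
        obtain ⟨code, hc⟩ := chkRow_mem BT nT p.1 p.2.1 N p.2.2 (hP p hp).2 y hy
        exact chkPair_mem BT nT p.1 p.2.1 y.1 y.2 code (smallB_small (hP p hp).1.2)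
          (smallB_small (hN y hy).2) hT hc
    · rw [hneg y hy] at h1
      have h3 : (0 : ℝ) ≤ (y.2 : ℝ) := Nat.cast_nonneg _
      linarith

theorem link (BT nT : ℕ) (L : List ℕ) (h : chkLink BT nT L = true) (x : E)
    (hx : InCn (genG BT nT).toFinset x) : InCn L.toFinset x := by
  unfold chkLink at h
  rw [List.all_eq_true] at h
  refine hx.trans fun X hX => InCn.single ?_
  rw [List.mem_toFinset] at hX ⊢
  unfold genG at hX
  rw [List.mem_map] at hX
  obtain ⟨t, ht, rfl⟩ := hX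
  exact List.elem_iff.1 (h t ht)

end Pool.Agent.Helper2.GV
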