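import Pool.Agent.Helper2.GM.Cone

/-!
Project GV: the polytope of the squared moduli of entries and 2×2 minors of a unitary 4×4 matrix.

Vectors with 22 coordinates `(p_0..p_3, m1_01..m1_23, m2_01..m2_23, m3_01..m3_23)`; vectors with small
nonnegative integer coordinates are packed into one natural number (base 256, coordinate `i` is the
digit `i`).
-/

set_option autoImplicit false

namespace Pool.Agent.Helper2.GV

open Matrix Complex Equiv Pool.Agent.Helper2.GM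

abbrev E := Fin 22 → ℝ

/-- digit `k` of `X` -/
def dg (k X : ℕ) : ℕ := X / 256 ^ k % 256

/-- the vector packed in `X` -/
def vec (X : ℕ) : E := fun i => (dg i X : ℝ)

/-- the cone generated by the vectors packed in `F` -/
def InCn (F : Finset ℕ) (x : E) : Prop :=
  ∃ c : ℕ → ℝ, (∀ X, 0 ≤ c X) ∧ x = ∑ X ∈ F, c X • vec X

/-- the number of the pair `{k, l}`: 01, 02, 03, 12, 13, 23 -/
def eI : Fin 4 → Fin 4 → ℕ :=
  ![![0, 0, 1, 2], ![0, 0, 3, 4], ![1, 3, 0, 5], ![2, 4, 5, 0]]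

/-- the atom: row `0` goes to `k`, and the rows `1, 2, 3` to `l1`, `l2`, `l3` (not necessarily
distinct), packed -/
def atm (k l1 l2 l3 : Fin 4) : ℕ :=
  256 ^ (k : ℕ) + 256 ^ (4 + eI k l1) + 256 ^ (10 + eI k l2) + 256 ^ (16 + eI k l3)

/-- the 108 atoms -/
def atoms : Finset ℕ :=
  (Finset.univ.filter fun t : Fin 4 × Fin 4 × Fin 4 × Fin 4 =>
    t.2.1 ≠ t.1 ∧ t.2.2.1 ≠ t.1 ∧ t.2.2.2 ≠ t.1).image fun t => atm t.1 t.2.1 t.2.2.1 t.2.2.2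

/-- the vector of a unitary matrix -/
noncomputable def xU (U : M4) : E :=
  ![P U 0 0, P U 0 1, P U 0 2, P U 0 3,
    mm U 0 1 0 1, mm U 0 1 0 2, mm U 0 1 0 3, mm U 0 1 1 2, mm U 0 1 1 3, mm U 0 1 2 3,
    mm U 0 2 0 1, mm U 0 2 0 2, mm U 0 2 0 3, mm U 0 2 1 2, mm U 0 2 1 3, mm U 0 2 2 3,
    mm U 0 3 0 1, mm U 0 3 0 2, mm U 0 3 0 3, mm U 0 3 1 2, mm U 0 3 1 3, mm U 0 3 2 3]

/-- the coordinates as functions of indices -/
def pc (x : E) (k : Fin 4) : ℝ := (![x 0, x 1, x 2, x 3] : Fin 4 → ℝ) k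

def mc1 (x : E) (k l : Fin 4) : ℝ :=
  (![![0, x 4, x 5, x 6], ![x 4, 0, x 7, x 8], ![x 5, x 7, 0, x 9],
    ![x 6, x 8, x 9, 0]] : Fin 4 → Fin 4 → ℝ) k l

def mc2 (x : E) (k l : Fin 4) : ℝ :=
  (![![0, x 10, x 11, x 12], ![x 10, 0, x 13, x 14], ![x 11, x 13, 0, x 15],
    ![x 12, x 14, x 15, 0]] : Fin 4 → Fin 4 → ℝ) k l

def mc3 (x : E) (k l : Fin 4) : ℝ :=
  (![![0, x 16, x 17, x 18], ![x 16, 0, x 19, x 20], ![x 17, x 19, 0, x 21],
    ![x 18, x 20, x 21, 0]] : Fin 4 → Fin 4 → ℝ) k l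

/-- the total mass -/
def tau (x : E) : ℝ := x 0 + x 1 + x 2 + x 3

/-- the polynomial with coefficients `x` (homogeneous in `x`) -/
def Lam (x : E) : Pt → ℂ := fun y =>
  Ph (fun i k => (![pc x k,
      mc1 x k 0 + mc1 x k 1 + mc1 x k 2 + mc1 x k 3 - pc x k,
      mc2 x k 0 + mc2 x k 1 + mc2 x k 2 + mc2 x k 3 - pc x k,
      mc3 x k 0 + mc3 x k 1 + mc3 x k 2 + mc3 x k 3 - pc x k] : Fin 4 → ℝ) i)
    (mc1 x) (mc2 x) (mc3 x) y.1 y.2
  + ((tau x : ℂ) - 1) * (y.1 0 * y.1 1 * y.1 2 * y.1 3 + y.2 0 * y.2 1 * y.2 2 * y.2 3)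

/-- the packed vector of a permutation -/
def pk (σ : Perm (Fin 4)) : ℕ := atm (σ 0) (σ 1) (σ 2) (σ 3)

end Pool.Agent.Helper2.GV
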