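import Pool.Agent.Helper2.GV.Exc

/-!
Project GV, module OpenM: the 48 exceptional points are in the hull of the 24 products for all spectra
in a nonempty open set.

Proof.  For complex `z1 z2 z3 y` let `cr z1 z2 y = ((conj (z2 - z1)) * (y - z1)).im`.  If
`cr z1 z2 y > 0`, `cr z2 z3 y > 0`, `cr z3 z1 y > 0` then `y` is in the convex hull of `z1, z2, z3`
(barycentric coordinates `cr z2 z3 y / s`, `cr z3 z1 y / s`, `cr z1 z2 y / s`, `s` their sum).
`O` = set of all `x : Pt` with these three inequalities (or all three reversed: choose the order of the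
three permutations accordingly) for `z_i = Z σ_i x`, for `y = VV cc h x` and `y = VV cc' h x`, all `h`:
open (finitely many strict inequalities between continuous functions).  It contains the point
`a = (-1+i, -1-i, 1, 0)`, `b = (0, -i, i, 1)` with the permutations (images of 0,1,2,3)
`(0,1,3,2)`, `(2,0,3,1)`, `(2,1,0,3)` (up to the order = orientation; found numerically, all 144
inequalities hold with a margin of 14 percent of the area).  For the check use Gaussian integers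
(`GaussianInt.toComplex` is a ring homomorphism, or pairs of integers) and `decide +kernel` over all `h`.
-/

set_option autoImplicit false

namespace Pool.Agent.Helper2.GV

open Matrix Complex Equiv Pool.Agent.Helper2.GM

namespace OpenM

/-- twice the oriented area of the triangle `z1, z2, y` -/
def cr (z1 z2 y : ℂ) : ℝ :=
  (z2.re - z1.re) * (y.im - z1.im) - (z2.im - z1.im) * (y.re - z1.re)

/-- a point on the left of the three sides is in the triangle -/
theorem OM_mem {A : Set ℂ} (hA : Convex ℝ A) {z1 z2 z3 y : ℂ} (h1 : z1 ∈ A) (h2 : z2 ∈ A)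
    (h3 : z3 ∈ A) (c1 : 0 < cr z1 z2 y) (c2 : 0 < cr z2 z3 y) (c3 : 0 < cr z3 z1 y) : y ∈ A := by
  obtain ⟨s, hs⟩ : ∃ s : ℝ, s = cr z1 z2 y + cr z2 z3 y + cr z3 z1 y := ⟨_, rfl⟩
  have hs0 : 0 < s := by linarith
  have key : (cr z2 z3 y / s) • z1 + (cr z3 z1 y / s) • z2 + (cr z1 z2 y / s) • z3 = y := by
    apply Complex.ext
    · simp only [Complex.add_re, Complex.smul_re, smul_eq_mul]
      field_simp
      rw [hs]
      unfold cr
      ring
    · simp only [Complex.add_im, Complex.smul_im, smul_eq_mul]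
      field_simp
      rw [hs]
      unfold cr
      ring
  have h4 := hA.sum_mem (t := (Finset.univ : Finset (Fin 3)))
    (w := ![cr z2 z3 y / s, cr z3 z1 y / s, cr z1 z2 y / s]) (z := ![z1, z2, z3])
    (by
      intro i _
      fin_cases i
      · exact (div_pos c2 hs0).le
      · exact (div_pos c3 hs0).le
      · exact (div_pos c1 hs0).le)
    (by
      rw [Fin.sum_univ_three]
      simp only [Matrix.cons_val_zero, Matrix.cons_val_one, Matrix.cons_val]
      rw [← add_div, ← add_div, div_eq_one_iff_eq hs0.ne', hs]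
      ring)
    (by
      intro i _
      fin_cases i
      · exact h1
      · exact h2
      · exact h3)
  rw [Fin.sum_univ_three] at h4
  simp only [Matrix.cons_val_zero, Matrix.cons_val_one, Matrix.cons_val] at h4
  rwa [key] at h4

theorem OM_contZ (σ : Perm (Fin 4)) : Continuous (Z σ) := by
  unfold Z
  exact continuous_finsetProd _ fun i _ =>
    ((continuous_apply i).comp continuous_fst).add ((continuous_apply (σ i)).comp continuous_snd)

theorem OM_contV (c h : Perm (Fin 4)) : Continuous (VV c h) := by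
  unfold VV
  exact (((((OM_contZ _).add (OM_contZ _)).add (OM_contZ _)).add (OM_contZ _)).sub
    (OM_contZ _)).div_const _

theorem OM_cont {f g k : Pt → ℂ} (hf : Continuous f) (hg : Continuous g) (hk : Continuous k) :
    Continuous fun x => cr (f x) (g x) (k x) := by
  unfold cr
  have a1 := Complex.continuous_re.comp hf
  have a2 := Complex.continuous_im.comp hf
  have b1 := Complex.continuous_re.comp hg
  have b2 := Complex.continuous_im.comp hg
  have c1 := Complex.continuous_re.comp hk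
  have c2 := Complex.continuous_im.comp hk
  exact ((b1.sub a1).mul (c2.sub a2)).sub ((b2.sub a2).mul (c1.sub a1))

/-! Gaussian integers as pairs -/

def gm (p q : ℤ × ℤ) : ℤ × ℤ := (p.1 * q.1 - p.2 * q.2, p.1 * q.2 + p.2 * q.1)

noncomputable def tc (p : ℤ × ℤ) : ℂ := ⟨(p.1 : ℝ), (p.2 : ℝ)⟩

theorem tc_gm (p q : ℤ × ℤ) : tc (gm p q) = tc p * tc q := by
  apply Complex.ext
  · simp [tc, gm]
  · simp [tc, gm]

theorem tc_add (p q : ℤ × ℤ) : tc (p + q) = tc p + tc q := by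
  apply Complex.ext
  · simp [tc]
  · simp [tc]

theorem tc_sub (p q : ℤ × ℤ) : tc (p - q) = tc p - tc q := by
  apply Complex.ext
  · simp [tc]
  · simp [tc]

def ga : Fin 4 → ℤ × ℤ := ![(-1, 1), (-1, -1), (1, 0), (0, 0)]

def gb : Fin 4 → ℤ × ℤ := ![(0, 0), (0, -1), (0, 1), (1, 0)]

def gZ (σ : Perm (Fin 4)) : ℤ × ℤ :=
  gm (gm (gm (ga 0 + gb (σ 0)) (ga 1 + gb (σ 1))) (ga 2 + gb (σ 2))) (ga 3 + gb (σ 3))

def gV (c h : Perm (Fin 4)) : ℤ × ℤ :=
  gZ (h * swap 0 1) + gZ (h * swap 0 2) + gZ (h * swap 0 3) + gZ (h * c) - gZ h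

/-- three times the oriented area for `y / 3` -/
def gc (z1 z2 y : ℤ × ℤ) : ℤ :=
  (z2.1 - z1.1) * (y.2 - 3 * z1.2) - (z2.2 - z1.2) * (y.1 - 3 * z1.1)

/-- the point -/
noncomputable def x0 : Pt := (fun i => tc (ga i), fun i => tc (gb i))

theorem Z_x0 (σ : Perm (Fin 4)) : Z σ x0 = tc (gZ σ) := by
  unfold Z gZ x0
  rw [Fin.prod_univ_four, tc_gm, tc_gm, tc_gm, tc_add, tc_add, tc_add, tc_add]

theorem VV_x0 (c h : Perm (Fin 4)) : VV c h x0 = tc (gV c h) / 3 := by
  unfold VV gV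
  rw [tc_sub, tc_add, tc_add, tc_add]
  simp only [Z_x0]

theorem cr_tc (z1 z2 y : ℤ × ℤ) : cr (tc z1) (tc z2) (tc y / 3) = (gc z1 z2 y : ℝ) / 3 := by
  have h1 : (tc y / 3).re = (y.1 : ℝ) / 3 := by
    have : (tc y / 3) = tc y / ((3 : ℝ) : ℂ) := by norm_num
    rw [this, Complex.div_ofReal_re]
    rfl
  have h2 : (tc y / 3).im = (y.2 : ℝ) / 3 := by
    have : (tc y / 3) = tc y / ((3 : ℝ) : ℂ) := by norm_num
    rw [this, Complex.div_ofReal_im]
    rfl
  unfold cr gc
  rw [h1, h2]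
  simp only [tc]
  push_cast
  ring

/-- the three permutations -/
def s1 : Perm (Fin 4) := swap 2 3

def s2 : Perm (Fin 4) := swap 0 1 * swap 0 3 * swap 0 2

def s3 : Perm (Fin 4) := swap 0 2

/-- the inequalities -/
def OK (c h : Perm (Fin 4)) : Set Pt :=
  {x | 0 < cr (Z s1 x) (Z s2 x) (VV c h x)} ∩
    ({x | 0 < cr (Z s2 x) (Z s3 x) (VV c h x)} ∩ {x | 0 < cr (Z s3 x) (Z s1 x) (VV c h x)})

theorem OK_open (c h : Perm (Fin 4)) : IsOpen (OK c h) :=
  (isOpen_lt continuous_const (OM_cont (OM_contZ _) (OM_contZ _) (OM_contV _ _))).inter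
    ((isOpen_lt continuous_const (OM_cont (OM_contZ _) (OM_contZ _) (OM_contV _ _))).inter
      (isOpen_lt continuous_const (OM_cont (OM_contZ _) (OM_contZ _) (OM_contV _ _))))

theorem OK_mem {c h : Perm (Fin 4)} {x : Pt} (hx : x ∈ OK c h) :
    VV c h x ∈ convexHull ℝ (Set.range fun σ : Perm (Fin 4) => Z σ x) :=
  OM_mem (convex_convexHull ℝ _) (subset_convexHull ℝ _ ⟨s1, rfl⟩)
    (subset_convexHull ℝ _ ⟨s2, rfl⟩) (subset_convexHull ℝ _ ⟨s3, rfl⟩) hx.1 hx.2.1 hx.2.2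

theorem gc_pos : ∀ h : Perm (Fin 4),
    (0 < gc (gZ s1) (gZ s2) (gV cc h) ∧ 0 < gc (gZ s2) (gZ s3) (gV cc h) ∧
      0 < gc (gZ s3) (gZ s1) (gV cc h)) ∧
    (0 < gc (gZ s1) (gZ s2) (gV cc' h) ∧ 0 < gc (gZ s2) (gZ s3) (gV cc' h) ∧
      0 < gc (gZ s3) (gZ s1) (gV cc' h)) := by
  decide +kernel

theorem x0_mem {c h : Perm (Fin 4)} (h1 : 0 < gc (gZ s1) (gZ s2) (gV c h))
    (h2 : 0 < gc (gZ s2) (gZ s3) (gV c h)) (h3 : 0 < gc (gZ s3) (gZ s1) (gV c h)) :
    x0 ∈ OK c h := by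
  refine ⟨?_, ?_, ?_⟩
  · change 0 < cr (Z s1 x0) (Z s2 x0) (VV c h x0)
    rw [Z_x0, Z_x0, VV_x0, cr_tc]
    have : (0 : ℝ) < (gc (gZ s1) (gZ s2) (gV c h) : ℝ) := by exact_mod_cast h1
    positivity
  · change 0 < cr (Z s2 x0) (Z s3 x0) (VV c h x0)
    rw [Z_x0, Z_x0, VV_x0, cr_tc]
    have : (0 : ℝ) < (gc (gZ s2) (gZ s3) (gV c h) : ℝ) := by exact_mod_cast h2
    positivity
  · change 0 < cr (Z s3 x0) (Z s1 x0) (VV c h x0)
    rw [Z_x0, Z_x0, VV_x0, cr_tc]
    have : (0 : ℝ) < (gc (gZ s3) (gZ s1) (gV c h) : ℝ) := by exact_mod_cast h3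
    positivity

end OpenM

open OpenM in
theorem open_set : ∃ O : Set Pt, IsOpen O ∧ O.Nonempty ∧ ∀ x ∈ O, ∀ h : Perm (Fin 4),
    VV cc h x ∈ convexHull ℝ (Set.range fun σ : Perm (Fin 4) => Z σ x) ∧
    VV cc' h x ∈ convexHull ℝ (Set.range fun σ : Perm (Fin 4) => Z σ x) := by
  refine ⟨⋂ h : Perm (Fin 4), OK cc h ∩ OK cc' h,
    isOpen_iInter_of_finite fun h => (OK_open cc h).inter (OK_open cc' h), ⟨x0, ?_⟩, ?_⟩
  · rw [Set.mem_iInter]
    intro h
    obtain ⟨⟨a1, a2, a3⟩, ⟨b1, b2, b3⟩⟩ := gc_pos h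
    exact ⟨x0_mem a1 a2 a3, x0_mem b1 b2 b3⟩
  · intro x hx h
    rw [Set.mem_iInter] at hx
    exact ⟨OK_mem (hx h).1, OK_mem (hx h).2⟩

end Pool.Agent.Helper2.GV
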