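import Pool.Agent.Helper2.GV.Asm
import Pool.Agent.Helper2.GV.OpenM

/-!
Project GV: final form.
-/

set_option autoImplicit false

namespace Pool.Agent.Helper2.GV

open Matrix Complex Equiv Pool.Agent.Helper2.GM

theorem det_eqV (U V : M4) (hU : U ∈ unitaryGroup (Fin 4) ℂ) (a b : Fin 4 → ℂ) :
    (U * diagonal a * star U + V * diagonal b * star V).det = DD (star U * V) a b := by
  have h2 : star U * U = 1 := mem_unitaryGroup_iff'.1 hU
  have h3 : U * star U = 1 := mem_unitaryGroup_iff.1 hU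
  unfold DD
  have e1 : U * diagonal a * star U + V * diagonal b * star V
      = U * (diagonal a + star U * V * diagonal b * star (star U * V)) * star U := by
    rw [Matrix.mul_add, Matrix.add_mul]
    congr 1
    rw [star_mul, star_star]
    calc V * diagonal b * star V = (U * star U) * V * diagonal b * star V * (U * star U) := by
          rw [h3, Matrix.one_mul, Matrix.mul_one]
      _ = _ := by simp only [Matrix.mul_assoc]
  rw [e1, Matrix.mul_assoc, Matrix.det_mul_comm, Matrix.mul_assoc, h2, Matrix.mul_one]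

theorem star_unitaryV (U : M4) (hU : U ∈ unitaryGroup (Fin 4) ℂ) :
    star U ∈ unitaryGroup (Fin 4) ℂ := by
  rw [mem_unitaryGroup_iff, star_star]
  exact mem_unitaryGroup_iff'.1 hU

theorem main1 (U V : M4) (hU : U ∈ unitaryGroup (Fin 4) ℂ) (hV : V ∈ unitaryGroup (Fin 4) ℂ) :
    ∃ w u v : Perm (Fin 4) → ℝ, (∀ σ, 0 ≤ w σ) ∧ (∀ σ, 0 ≤ u σ) ∧ (∀ σ, 0 ≤ v σ) ∧
      ∑ σ, w σ + ∑ σ, u σ + ∑ σ, v σ = 1 ∧ ∀ a b : Fin 4 → ℂ,
        (U * diagonal a * star U + V * diagonal b * star V).det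
          = ∑ σ, (w σ : ℂ) * Z σ (a, b) + ∑ σ, (u σ : ℂ) * VV cc σ (a, b)
            + ∑ σ, (v σ : ℂ) * VV cc' σ (a, b) := by
  obtain ⟨w, u, v, h1, h2, h3, h4, h5⟩ := DD_Q3 (star U * V) (mul_mem (star_unitaryV U hU) hV)
  refine ⟨w, u, v, h1, h2, h3, h4, fun a b => ?_⟩
  rw [det_eqV U V hU]
  exact congrFun h5 (a, b)

theorem main2 (U V : M4) (hU : U ∈ unitaryGroup (Fin 4) ℂ) (hV : V ∈ unitaryGroup (Fin 4) ℂ)
    (x : Pt) (hx : ∀ h : Perm (Fin 4),
      VV cc h x ∈ convexHull ℝ (Set.range fun σ : Perm (Fin 4) => Z σ x) ∧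
      VV cc' h x ∈ convexHull ℝ (Set.range fun σ : Perm (Fin 4) => Z σ x)) :
    (U * diagonal x.1 * star U + V * diagonal x.2 * star V).det
      ∈ convexHull ℝ (Set.range fun σ : Perm (Fin 4) => Z σ x) := by
  obtain ⟨w, u, v, h1, h2, h3, h4, h5⟩ := main1 U V hU hV
  rw [h5 x.1 x.2]
  have e : ∑ σ, (w σ : ℂ) * Z σ (x.1, x.2) + ∑ σ, (u σ : ℂ) * VV cc σ (x.1, x.2)
      + ∑ σ, (v σ : ℂ) * VV cc' σ (x.1, x.2)
      = ∑ i : Perm (Fin 4) ⊕ (Perm (Fin 4) ⊕ Perm (Fin 4)),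
        (Sum.elim w (Sum.elim u v) i) •
          (Sum.elim (fun σ => Z σ x) (Sum.elim (fun σ => VV cc σ x) (fun σ => VV cc' σ x)) i) := by
    simp only [Fintype.sum_sum_type, Sum.elim_inl, Sum.elim_inr, Complex.real_smul]
    ring
  rw [e]
  apply (convex_convexHull ℝ _).sum_mem
  · rintro (i | i | i) _
    · exact h1 i
    · exact h2 i
    · exact h3 i
  · simp only [Fintype.sum_sum_type, Sum.elim_inl, Sum.elim_inr]
    linarith
  · rintro (i | i | i) _
    · exact subset_convexHull ℝ _ ⟨i, rfl⟩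
    · exact (hx i).1
    · exact (hx i).2

end Pool.Agent.Helper2.GV
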