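import Mathlib

/-!
Project GV, module SmA: a point deep inside the hull of `L` stays in the hull after small moves.

Proof.  If `y'` is not in the (compact, convex) hull of the `z' σ`, `geometric_hahn_banach` gives a real
linear functional, i.e. a number `ω` (`f v = (ω * v).re`, `ω = f 1 - I * f I`), scaled to `‖ω‖ = 1`, with
`(ω * z' σ).re < (ω * y').re` for all `σ`.  For the `σ` of `h ω`:
`r ≤ (ω * (L σ - Y)).re < (ω * (y' - Y)).re + (ω * (L σ - z' σ)).re < r`.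
-/

set_option autoImplicit false

namespace Pool.Agent.Helper2.GV

theorem sm_perturb {ι : Type} [Fintype ι] (L : ι → ℂ) (Y : ℂ) (r : ℝ) (hr : 0 < r)
    (h : ∀ ω : ℂ, ‖ω‖ = 1 → ∃ σ, r ≤ (ω * (L σ - Y)).re) (z' : ι → ℂ) (y' : ℂ)
    (hz : ∀ σ, ‖z' σ - L σ‖ < r / 2) (hy : ‖y' - Y‖ < r / 2) :
    y' ∈ convexHull ℝ (Set.range z') := by
  by_contra hnot
  have hcl : IsClosed (convexHull ℝ (Set.range z')) :=
    ((Set.finite_range z').isCompact_convexHull ℝ).isClosed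
  obtain ⟨f, u, hf1, hf2⟩ :=
    geometric_hahn_banach_closed_point (convex_convexHull ℝ (Set.range z')) hcl hnot
  have hf : ∀ v : ℂ, (((f 1 : ℝ) - Complex.I * (f Complex.I : ℝ) : ℂ) * v).re = f v := by
    intro v
    have h1 : v = v.re • (1 : ℂ) + v.im • Complex.I := by
      apply Complex.ext <;> simp
    have h2 : f v = v.re * f 1 + v.im * f Complex.I := by
      conv_lhs => rw [h1]
      rw [map_add, map_smul, map_smul, smul_eq_mul, smul_eq_mul]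
    rw [h2]
    simp
    ring
  obtain ⟨w, hw⟩ : ∃ w : ℂ, w = (f 1 : ℝ) - Complex.I * (f Complex.I : ℝ) := ⟨_, rfl⟩
  rw [← hw] at hf
  have hlt : ∀ σ, f (z' σ) < f y' := fun σ =>
    (hf1 _ (subset_convexHull ℝ _ (Set.mem_range_self σ))).trans hf2
  have hw0 : w ≠ 0 := by
    intro h0
    obtain ⟨σ, -⟩ := h 1 (by simp)
    have h1 := hlt σ
    rw [← hf, ← hf, h0] at h1
    simp at h1
  have hwn : 0 < ‖w‖ := norm_pos_iff.2 hw0
  obtain ⟨σ, hσ⟩ := h (((‖w‖⁻¹ : ℝ) : ℂ) * w) (by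
    rw [norm_mul, Complex.norm_real, Real.norm_of_nonneg (inv_nonneg.2 hwn.le),
      inv_mul_cancel₀ hwn.ne'])
  have hsc : ∀ v : ℂ, (((‖w‖⁻¹ : ℝ) : ℂ) * w * v).re = ‖w‖⁻¹ * f v := by
    intro v
    rw [mul_assoc, Complex.re_ofReal_mul, hf]
  have hb : ∀ v : ℂ, ‖w‖⁻¹ * f v ≤ ‖v‖ := by
    intro v
    have h1 : f v ≤ ‖w‖ * ‖v‖ := by
      rw [← hf, ← norm_mul]
      exact Complex.re_le_norm _
    calc ‖w‖⁻¹ * f v ≤ ‖w‖⁻¹ * (‖w‖ * ‖v‖) :=
          mul_le_mul_of_nonneg_left h1 (inv_nonneg.2 hwn.le)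
      _ = ‖v‖ := by rw [← mul_assoc, inv_mul_cancel₀ hwn.ne', one_mul]
  rw [hsc] at hσ
  have e1 : L σ - Y = (L σ - z' σ) + (z' σ - y') + (y' - Y) := by ring
  rw [e1, map_add, map_add, mul_add, mul_add] at hσ
  have h1 := hb (L σ - z' σ)
  have h2 := hb (y' - Y)
  have h3 : ‖w‖⁻¹ * f (z' σ - y') < 0 := by
    rw [map_sub]
    exact mul_neg_of_pos_of_neg (inv_pos.2 hwn) (by linarith [hlt σ])
  have h4 := hz σ
  rw [norm_sub_rev] at h4
  linarith

end Pool.Agent.Helper2.GV
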