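import Mathlib

/-!
Project GV, module SmB: compactness of the circle.

Proof.  `G ω = ∑ σ, max 0 (ω * v σ).re` is continuous and positive on the compact set
`Metric.sphere 0 1`; let `g > 0` be its minimum; some `σ` has `(ω * v σ).re ≥ g / (card ι)`.
-/

set_option autoImplicit false

namespace Pool.Agent.Helper2.GV

theorem sm_compact {ι : Type} [Fintype ι] (v : ι → ℂ)
    (h : ∀ ω : ℂ, ‖ω‖ = 1 → ∃ σ, 0 < (ω * v σ).re) :
    ∃ r : ℝ, 0 < r ∧ ∀ ω : ℂ, ‖ω‖ = 1 → ∃ σ, r ≤ (ω * v σ).re := by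
  have hcont : Continuous fun ω : ℂ => ∑ σ, max 0 (ω * v σ).re :=
    continuous_finsetSum _ fun σ _ =>
      continuous_const.max (Complex.continuous_re.comp (continuous_id.mul continuous_const))
  obtain ⟨w0, hw0, hmin⟩ := (isCompact_sphere (0 : ℂ) 1).exists_isMinOn
    ⟨1, by simp⟩ hcont.continuousOn
  obtain ⟨g, hg⟩ : ∃ g : ℝ, g = ∑ σ, max 0 (w0 * v σ).re := ⟨_, rfl⟩
  have hgpos : 0 < g := by
    obtain ⟨σ, hσ⟩ := h w0 (by simpa using hw0)
    have h1 : max 0 (w0 * v σ).re ≤ g := by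
      rw [hg]
      exact Finset.single_le_sum (f := fun σ => max 0 (w0 * v σ).re)
        (fun i _ => le_max_left _ _) (Finset.mem_univ σ)
    exact (hσ.trans_le (le_max_right _ _)).trans_le h1
  have hc : (0 : ℝ) < Fintype.card ι + 1 := by positivity
  refine ⟨g / (Fintype.card ι + 1), div_pos hgpos hc, fun ω hω => ?_⟩
  by_contra hno
  push Not at hno
  have h1 : g ≤ ∑ σ, max 0 (ω * v σ).re := by
    rw [hg]
    exact hmin (a := ω) (by simpa using hω)
  have h2 : ∑ σ, max 0 (ω * v σ).re ≤ ∑ _σ : ι, g / (Fintype.card ι + 1) :=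
    Finset.sum_le_sum fun σ _ => max_le (div_pos hgpos hc).le (hno σ).le
  rw [Finset.sum_const, Finset.card_univ, nsmul_eq_mul] at h2
  have h3 : (Fintype.card ι : ℝ) * (g / (Fintype.card ι + 1)) < g := by
    rw [mul_div_assoc', div_lt_iff₀ hc]
    nlinarith
  linarith

end Pool.Agent.Helper2.GV
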