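import Pool.Agent.Helper2.GV.Exc

/-!
Project GV, module SmC: the first order test.

`LL c b σ = ∑ i, c i * b (σ i)`.  For `s = cc` or `cc'` and `τ = h * s⁻¹` the point
`Y = (LL (h(01)) + LL (h(02)) + LL (h(03)) + LL (h s) - LL h) / 3` is the mean of `LL c b σ` over the
nine `σ` with `σ i ≠ τ i` for all `i` (both have the matrix `(J - P_τ) / 3`).
If `(ω * (LL c b σ - Y)).re ≤ 0` for all `σ`, then `= 0` for these nine, and the difference of
two of them with `σ i = τ j`, `σ k = τ l` resp. `σ' i = τ l`, `σ' k = τ j`, `σ = σ'` elsewhere, gives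
`(ω * ((c i - c k) * (b (τ j) - b (τ l)))).re = 0`.
-/

set_option autoImplicit false

namespace Pool.Agent.Helper2.GV

open Equiv Pool.Agent.Helper2.GM

/-- the first order part of `Z σ (a, t b)`, with `c i = ∏ (m ≠ i), a m` -/
noncomputable def LL (c b : Fin 4 → ℂ) (σ : Perm (Fin 4)) : ℂ := ∑ i, c i * b (σ i)

/-- the first order part of `VV s h (a, t b)` -/
noncomputable def YY (c b : Fin 4 → ℂ) (s h : Perm (Fin 4)) : ℂ :=
  (LL c b (h * swap 0 1) + LL c b (h * swap 0 2) + LL c b (h * swap 0 3) + LL c b (h * s)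
    - LL c b h) / 3

namespace SmC

/-- linear algebra for the nine derangements -/
theorem core (x : Fin 4 → Fin 4 → ℝ) (y : ℝ)
    (hy : 3 * y = (x 0 1 + x 0 2 + x 0 3) + (x 1 0 + x 1 2 + x 1 3) + (x 2 0 + x 2 1 + x 2 3) +
      (x 3 0 + x 3 1 + x 3 2))
    (hx : ∀ g : Fin 4 → Fin 4, Function.Injective g →
      x 0 (g 0) + x 1 (g 1) + x 2 (g 2) + x 3 (g 3) ≤ y) :
    ∀ i j k l : Fin 4, [i, j, k, l].Nodup → x i j - x i l - x k j + x k l = 0 := by
  have h1 : x 0 1 + x 1 0 + x 2 3 + x 3 2 ≤ y := hx ![1, 0, 3, 2] (by decide)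
  have h2 : x 0 1 + x 1 2 + x 2 3 + x 3 0 ≤ y := hx ![1, 2, 3, 0] (by decide)
  have h3 : x 0 1 + x 1 3 + x 2 0 + x 3 2 ≤ y := hx ![1, 3, 0, 2] (by decide)
  have h4 : x 0 2 + x 1 0 + x 2 3 + x 3 1 ≤ y := hx ![2, 0, 3, 1] (by decide)
  have h5 : x 0 2 + x 1 3 + x 2 0 + x 3 1 ≤ y := hx ![2, 3, 0, 1] (by decide)
  have h6 : x 0 2 + x 1 3 + x 2 1 + x 3 0 ≤ y := hx ![2, 3, 1, 0] (by decide)
  have h7 : x 0 3 + x 1 0 + x 2 1 + x 3 2 ≤ y := hx ![3, 0, 1, 2] (by decide)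
  have h8 : x 0 3 + x 1 2 + x 2 0 + x 3 1 ≤ y := hx ![3, 2, 0, 1] (by decide)
  have h9 : x 0 3 + x 1 2 + x 2 1 + x 3 0 ≤ y := hx ![3, 2, 1, 0] (by decide)
  have e1 : x 0 1 + x 1 0 + x 2 3 + x 3 2 = y := by linarith
  have e2 : x 0 1 + x 1 2 + x 2 3 + x 3 0 = y := by linarith
  have e3 : x 0 1 + x 1 3 + x 2 0 + x 3 2 = y := by linarith
  have e4 : x 0 2 + x 1 0 + x 2 3 + x 3 1 = y := by linarith
  have e5 : x 0 2 + x 1 3 + x 2 0 + x 3 1 = y := by linarith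
  have e6 : x 0 2 + x 1 3 + x 2 1 + x 3 0 = y := by linarith
  have e7 : x 0 3 + x 1 0 + x 2 1 + x 3 2 = y := by linarith
  have e8 : x 0 3 + x 1 2 + x 2 0 + x 3 1 = y := by linarith
  have e9 : x 0 3 + x 1 2 + x 2 1 + x 3 0 = y := by linarith
  clear h1 h2 h3 h4 h5 h6 h7 h8 h9 hx hy
  intro i j k l hn
  fin_cases i <;> fin_cases j <;> fin_cases k <;> fin_cases l <;>
    first
    | (exfalso; revert hn; decide)
    | (simp only [Fin.zero_eta, Fin.mk_one, Fin.reduceFinMk]; linarith)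

theorem LL_eval (c b : Fin 4 → ℂ) (g : Fin 4 → Fin 4) (π : Perm (Fin 4)) (h : ∀ i, π i = g i) :
    LL c b π = c 0 * b (g 0) + c 1 * b (g 1) + c 2 * b (g 2) + c 3 * b (g 3) := by
  unfold LL
  rw [Fin.sum_univ_four, h, h, h, h]

/-- the matrix of the mean -/
theorem mean (c b : Fin 4 → ℂ) (s : Perm (Fin 4)) (hs : s = cc ∨ s = cc') :
    LL c b (s * swap 0 1) + LL c b (s * swap 0 2) + LL c b (s * swap 0 3) + LL c b (s * s)
      - LL c b s =
    (c 0 * b 1 + c 0 * b 2 + c 0 * b 3) + (c 1 * b 0 + c 1 * b 2 + c 1 * b 3) +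
      (c 2 * b 0 + c 2 * b 1 + c 2 * b 3) + (c 3 * b 0 + c 3 * b 1 + c 3 * b 2) := by
  rcases hs with rfl | rfl
  · rw [LL_eval c b ![2, 0, 3, 1] (cc * swap 0 1) (by decide),
      LL_eval c b ![3, 2, 0, 1] (cc * swap 0 2) (by decide),
      LL_eval c b ![1, 2, 3, 0] (cc * swap 0 3) (by decide),
      LL_eval c b ![0, 3, 1, 2] (cc * cc) (by decide),
      LL_eval c b ![0, 2, 3, 1] cc (by decide)]
    simp only [Matrix.cons_val_zero, Matrix.cons_val_one, Matrix.cons_val]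
    ring
  · rw [LL_eval c b ![3, 0, 1, 2] (cc' * swap 0 1) (by decide),
      LL_eval c b ![1, 3, 0, 2] (cc' * swap 0 2) (by decide),
      LL_eval c b ![2, 3, 1, 0] (cc' * swap 0 3) (by decide),
      LL_eval c b ![0, 2, 3, 1] (cc' * cc') (by decide),
      LL_eval c b ![0, 3, 1, 2] cc' (by decide)]
    simp only [Matrix.cons_val_zero, Matrix.cons_val_one, Matrix.cons_val]
    ring

theorem LL_comp (c b : Fin 4 → ℂ) (τ π : Perm (Fin 4)) :
    LL c b (τ * π) = LL c (fun j => b (τ j)) π := rfl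

end SmC

open SmC in
theorem sm_pos (c b : Fin 4 → ℂ) (s h : Perm (Fin 4)) (hs : s = cc ∨ s = cc') (ω : ℂ)
    (hω : ∀ σ, (ω * (LL c b σ - YY c b s h)).re ≤ 0) :
    ∃ τ : Perm (Fin 4), ∀ i j k l : Fin 4, [i, j, k, l].Nodup →
      (ω * ((c i - c k) * (b (τ j) - b (τ l)))).re = 0 := by
  obtain ⟨τ, hτ⟩ : ∃ τ : Perm (Fin 4), τ = h * s⁻¹ := ⟨_, rfl⟩
  have hh : h = τ * s := by rw [hτ, inv_mul_cancel_right]
  refine ⟨τ, fun i j k l hn => ?_⟩
  obtain ⟨β, hβ⟩ : ∃ β : Fin 4 → ℂ, β = fun j => b (τ j) := ⟨_, rfl⟩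
  have hY : 3 * YY c b s h =
      (c 0 * β 1 + c 0 * β 2 + c 0 * β 3) + (c 1 * β 0 + c 1 * β 2 + c 1 * β 3) +
      (c 2 * β 0 + c 2 * β 1 + c 2 * β 3) + (c 3 * β 0 + c 3 * β 1 + c 3 * β 2) := by
    rw [← mean c β s hs, hβ]
    simp only [← LL_comp, ← mul_assoc, ← hh]
    unfold YY
    ring
  have hy : 3 * (ω * YY c b s h).re =
      ((ω * (c 0 * β 1)).re + (ω * (c 0 * β 2)).re + (ω * (c 0 * β 3)).re) +
      ((ω * (c 1 * β 0)).re + (ω * (c 1 * β 2)).re + (ω * (c 1 * β 3)).re) +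
      ((ω * (c 2 * β 0)).re + (ω * (c 2 * β 1)).re + (ω * (c 2 * β 3)).re) +
      ((ω * (c 3 * β 0)).re + (ω * (c 3 * β 1)).re + (ω * (c 3 * β 2)).re) := by
    have h1 : 3 * (ω * YY c b s h).re = (ω * (3 * YY c b s h)).re := by
      have : ω * (3 * YY c b s h) = ((3 : ℝ) : ℂ) * (ω * YY c b s h) := by
        push_cast
        ring
      rw [this, Complex.re_ofReal_mul]
    rw [h1, hY]
    simp only [mul_add, Complex.add_re]
  have hx : ∀ g : Fin 4 → Fin 4, Function.Injective g →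
      (ω * (c 0 * β (g 0))).re + (ω * (c 1 * β (g 1))).re + (ω * (c 2 * β (g 2))).re +
        (ω * (c 3 * β (g 3))).re ≤ (ω * YY c b s h).re := by
    intro g hg
    have h1 := hω (τ * Equiv.ofBijective g (Finite.injective_iff_bijective.1 hg))
    rw [LL_comp, ← hβ, LL_eval c β g _ (fun i => rfl), mul_sub, Complex.sub_re] at h1
    simp only [mul_add, Complex.add_re] at h1 ⊢
    linarith
  have h2 := core (fun i j => (ω * (c i * β j)).re) ((ω * YY c b s h).re) hy hx i j k l hn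
  have h3 : ω * ((c i - c k) * (b (τ j) - b (τ l))) =
      ω * (c i * β j) - ω * (c i * β l) - ω * (c k * β j) + ω * (c k * β l) := by
    rw [hβ]
    ring
  rw [h3, Complex.add_re, Complex.sub_re, Complex.sub_re]
  exact h2

end Pool.Agent.Helper2.GV
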