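import Pool.Agent.Helper2.GV.SmA
import Pool.Agent.Helper2.GV.SmB
import Pool.Agent.Helper2.GV.SmC

/-!
Project GV, module SmD: generic spectra `a`, `t b` pass the test for all small `t`.
-/

set_option autoImplicit false

namespace Pool.Agent.Helper2.GV

open Equiv Pool.Agent.Helper2.GM Filter Topology

theorem hull_affine {ι : Type} (e t : ℂ) (q : ι → ℂ) (y : ℂ)
    (h : y ∈ convexHull ℝ (Set.range q)) :
    e + t * y ∈ convexHull ℝ (Set.range fun i => e + t * q i) := by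
  have hS : Convex ℝ {v : ℂ | e + t * v ∈ convexHull ℝ (Set.range fun i => e + t * q i)} := by
    intro x hx z hz p r hp hr hpr
    have h1 := (convex_convexHull ℝ (Set.range fun i => e + t * q i)) hx hz hp hr hpr
    simp only [Set.mem_setOf_eq]
    have h2 : e + t * (p • x + r • z) = p • (e + t * x) + r • (e + t * z) := by
      simp only [Complex.real_smul]
      have h3 : (p : ℂ) + (r : ℂ) = 1 := by exact_mod_cast hpr
      linear_combination (-e) * h3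
    rw [h2]
    exact h1
  refine convexHull_min ?_ hS h
  rintro v ⟨i, rfl⟩
  exact subset_convexHull ℝ _ ⟨i, rfl⟩

/-- the quotient `(Z σ (a, t b) - a 0 a 1 a 2 a 3) / t` -/
noncomputable def Qs (a b : Fin 4 → ℂ) (σ : Perm (Fin 4)) (t : ℂ) : ℂ :=
  (a 1 * a 2 * a 3 * b (σ 0) + a 0 * a 2 * a 3 * b (σ 1) + a 0 * a 1 * a 3 * b (σ 2)
    + a 0 * a 1 * a 2 * b (σ 3))
  + t * (b (σ 0) * b (σ 1) * a 2 * a 3 + b (σ 0) * b (σ 2) * a 1 * a 3
      + b (σ 0) * b (σ 3) * a 1 * a 2 + b (σ 1) * b (σ 2) * a 0 * a 3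
      + b (σ 1) * b (σ 3) * a 0 * a 2 + b (σ 2) * b (σ 3) * a 0 * a 1)
  + t ^ 2 * (b (σ 0) * b (σ 1) * b (σ 2) * a 3 + b (σ 0) * b (σ 1) * b (σ 3) * a 2
      + b (σ 0) * b (σ 2) * b (σ 3) * a 1 + b (σ 1) * b (σ 2) * b (σ 3) * a 0)
  + t ^ 3 * (b (σ 0) * b (σ 1) * b (σ 2) * b (σ 3))

theorem Z_Qs (a b : Fin 4 → ℂ) (σ : Perm (Fin 4)) (t : ℂ) :
    Z σ (a, t • b) = a 0 * a 1 * a 2 * a 3 + t * Qs a b σ t := by
  unfold Z Qs
  rw [Fin.prod_univ_four]
  simp only [Pi.smul_apply, smul_eq_mul]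
  ring

/-- the products of three of the `a m` -/
noncomputable def ec (a : Fin 4 → ℂ) (i : Fin 4) : ℂ := ∏ m ∈ Finset.univ.erase i, a m

theorem ec0 (a : Fin 4 → ℂ) : ec a 0 = a 1 * a 2 * a 3 := by
  unfold ec
  rw [show (Finset.univ.erase (0 : Fin 4)) = {1, 2, 3} by decide,
    Finset.prod_insert (by decide), Finset.prod_insert (by decide), Finset.prod_singleton]
  ring

theorem ec1 (a : Fin 4 → ℂ) : ec a 1 = a 0 * a 2 * a 3 := by
  unfold ec
  rw [show (Finset.univ.erase (1 : Fin 4)) = {0, 2, 3} by decide,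
    Finset.prod_insert (by decide), Finset.prod_insert (by decide), Finset.prod_singleton]
  ring

theorem ec2 (a : Fin 4 → ℂ) : ec a 2 = a 0 * a 1 * a 3 := by
  unfold ec
  rw [show (Finset.univ.erase (2 : Fin 4)) = {0, 1, 3} by decide,
    Finset.prod_insert (by decide), Finset.prod_insert (by decide), Finset.prod_singleton]
  ring

theorem ec3 (a : Fin 4 → ℂ) : ec a 3 = a 0 * a 1 * a 2 := by
  unfold ec
  rw [show (Finset.univ.erase (3 : Fin 4)) = {0, 1, 2} by decide,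
    Finset.prod_insert (by decide), Finset.prod_insert (by decide), Finset.prod_singleton]
  ring

theorem Qs_zero (a b : Fin 4 → ℂ) (σ : Perm (Fin 4)) : Qs a b σ 0 = LL (ec a) b σ := by
  unfold Qs LL
  rw [Fin.sum_univ_four, ec0, ec1, ec2, ec3]
  ring

theorem Qs_cont (a b : Fin 4 → ℂ) (σ : Perm (Fin 4)) : Continuous (Qs a b σ) := by
  unfold Qs
  fun_prop

/-- the quotient for `VV` -/
noncomputable def Ys (a b : Fin 4 → ℂ) (s h : Perm (Fin 4)) (t : ℂ) : ℂ :=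
  (Qs a b (h * swap 0 1) t + Qs a b (h * swap 0 2) t + Qs a b (h * swap 0 3) t
    + Qs a b (h * s) t - Qs a b h t) / 3

theorem VV_Ys (a b : Fin 4 → ℂ) (s h : Perm (Fin 4)) (t : ℂ) :
    VV s h (a, t • b) = a 0 * a 1 * a 2 * a 3 + t * Ys a b s h t := by
  unfold VV Ys
  simp only [Z_Qs]
  ring

theorem Ys_zero (a b : Fin 4 → ℂ) (s h : Perm (Fin 4)) : Ys a b s h 0 = YY (ec a) b s h := by
  unfold Ys YY
  simp only [Qs_zero]

theorem Ys_cont (a b : Fin 4 → ℂ) (s h : Perm (Fin 4)) : Continuous (Ys a b s h) := by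
  unfold Ys
  have := Qs_cont a b
  fun_prop

theorem sm_one (a b : Fin 4 → ℂ)
    (hg : ∀ (τ : Perm (Fin 4)) (ω : ℂ), (∀ i j k l : Fin 4, [i, j, k, l].Nodup →
      (ω * ((ec a i - ec a k) * (b (τ j) - b (τ l)))).re = 0) → ω = 0)
    (s h : Perm (Fin 4)) (hs : s = cc ∨ s = cc') :
    ∀ᶠ t : ℂ in 𝓝 0, VV s h (a, t • b)
      ∈ convexHull ℝ (Set.range fun σ : Perm (Fin 4) => Z σ (a, t • b)) := by
  have h1 : ∀ ω : ℂ, ‖ω‖ = 1 →
      ∃ σ, 0 < (ω * (LL (ec a) b σ - YY (ec a) b s h)).re := by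
    intro ω hω
    by_contra hc
    push_neg at hc
    obtain ⟨τ, hτ⟩ := sm_pos (ec a) b s h hs ω hc
    have := hg τ ω hτ
    rw [this, norm_zero] at hω
    exact zero_ne_one hω
  obtain ⟨r, hr, h2⟩ := sm_compact (fun σ => LL (ec a) b σ - YY (ec a) b s h) h1
  have h3 : ∀ σ : Perm (Fin 4), ∀ᶠ t : ℂ in 𝓝 0, ‖Qs a b σ t - LL (ec a) b σ‖ < r / 2 := by
    intro σ
    have hc : Continuous fun t => ‖Qs a b σ t - LL (ec a) b σ‖ :=
      ((Qs_cont a b σ).sub continuous_const).norm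
    have h0 : ‖Qs a b σ 0 - LL (ec a) b σ‖ < r / 2 := by
      rw [Qs_zero, sub_self, norm_zero]
      linarith
    exact (hc.tendsto 0).eventually (gt_mem_nhds h0)
  have h4 : ∀ᶠ t : ℂ in 𝓝 0, ‖Ys a b s h t - YY (ec a) b s h‖ < r / 2 := by
    have hc : Continuous fun t => ‖Ys a b s h t - YY (ec a) b s h‖ :=
      ((Ys_cont a b s h).sub continuous_const).norm
    have h0 : ‖Ys a b s h 0 - YY (ec a) b s h‖ < r / 2 := by
      rw [Ys_zero, sub_self, norm_zero]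
      linarith
    exact (hc.tendsto 0).eventually (gt_mem_nhds h0)
  have h5 := (eventually_all.2 h3).and h4
  refine h5.mono fun t ht => ?_
  have h6 := sm_perturb (LL (ec a) b) (YY (ec a) b s h) r hr h2 (fun σ => Qs a b σ t)
    (Ys a b s h t) ht.1 ht.2
  have h7 := hull_affine (a 0 * a 1 * a 2 * a 3) t _ _ h6
  rw [VV_Ys]
  simp only [Z_Qs]
  exact h7

theorem sm_small (a b : Fin 4 → ℂ)
    (hg : ∀ (τ : Perm (Fin 4)) (ω : ℂ), (∀ i j k l : Fin 4, [i, j, k, l].Nodup →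
      (ω * ((ec a i - ec a k) * (b (τ j) - b (τ l)))).re = 0) → ω = 0) :
    ∃ δ : ℝ, 0 < δ ∧ ∀ t : ℂ, ‖t‖ < δ → ∀ h : Perm (Fin 4),
      VV cc h (a, t • b) ∈ convexHull ℝ (Set.range fun σ : Perm (Fin 4) => Z σ (a, t • b)) ∧
      VV cc' h (a, t • b)
        ∈ convexHull ℝ (Set.range fun σ : Perm (Fin 4) => Z σ (a, t • b)) := by
  have h1 : ∀ᶠ t : ℂ in 𝓝 0, ∀ h : Perm (Fin 4),
      VV cc h (a, t • b) ∈ convexHull ℝ (Set.range fun σ : Perm (Fin 4) => Z σ (a, t • b)) ∧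
      VV cc' h (a, t • b)
        ∈ convexHull ℝ (Set.range fun σ : Perm (Fin 4) => Z σ (a, t • b)) :=
    eventually_all.2 fun h =>
      (sm_one a b hg cc h (Or.inl rfl)).and (sm_one a b hg cc' h (Or.inr rfl))
  obtain ⟨δ, hδ, h2⟩ := Metric.eventually_nhds_iff.1 h1
  refine ⟨δ, hδ, fun t ht => h2 ?_⟩
  rwa [dist_zero_right]

end Pool.Agent.Helper2.GV
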