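import Pool.Agent.Helper2.GV.Defs

/-!
Project GV, module StepM: elementary facts on the cones `InCn F`, and the elimination of one linear
equation.

Proof of `step`.  `x = ∑ c X • vec X`; with `a X = ℓ (vec X)` the equation `ℓ x = 0` is
`∑_{a X > 0} c X * a X = ∑_{a X < 0} c X * (-a X) = M`.  If `M = 0` then `c X = 0` whenever
`a X ≠ 0` (all terms are ≥ 0), and `x` is the sum over `a X = 0`.  If `M > 0`,
`x = ∑_{a X = 0} c X • vec X + ∑_{a X > 0} ∑_{a Y < 0} (c X * c Y / M) • ((-a Y) • vec X + a X • vec Y)`.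
-/

set_option autoImplicit false

namespace Pool.Agent.Helper2.GV

theorem InCn.zero (F : Finset ℕ) : InCn F 0 := by
  refine ⟨fun _ => 0, fun _ => le_rfl, ?_⟩
  simp

theorem InCn.single {F : Finset ℕ} {X : ℕ} (hX : X ∈ F) : InCn F (vec X) := by
  classical
  refine ⟨fun Y => if Y = X then 1 else 0, fun Y => ?_, ?_⟩
  · dsimp only
    split_ifs
    · exact zero_le_one
    · exact le_rfl
  · rw [Finset.sum_eq_single X]
    · simp only [if_true, one_smul]
    · intro Y _ hY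
      simp only [if_neg hY, zero_smul]
    · intro h
      exact absurd hX h

theorem InCn.add {F : Finset ℕ} {x y : E} (hx : InCn F x) (hy : InCn F y) : InCn F (x + y) := by
  obtain ⟨c, hc, rfl⟩ := hx
  obtain ⟨c', hc', rfl⟩ := hy
  refine ⟨fun X => c X + c' X, fun X => add_nonneg (hc X) (hc' X), ?_⟩
  rw [← Finset.sum_add_distrib]
  exact Finset.sum_congr rfl fun X _ => (add_smul _ _ _).symm

theorem InCn.smul {F : Finset ℕ} {x : E} (t : ℝ) (ht : 0 ≤ t) (hx : InCn F x) :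
    InCn F (t • x) := by
  obtain ⟨c, hc, rfl⟩ := hx
  refine ⟨fun X => t * c X, fun X => mul_nonneg ht (hc X), ?_⟩
  rw [Finset.smul_sum]
  exact Finset.sum_congr rfl fun X _ => smul_smul _ _ _

theorem InCn.sum {ι : Type*} {G : Finset ℕ} (s : Finset ι) (f : ι → E)
    (h : ∀ i ∈ s, InCn G (f i)) : InCn G (∑ i ∈ s, f i) := by
  classical
  induction s using Finset.induction_on with
  | empty =>
    rw [Finset.sum_empty]
    exact InCn.zero G
  | insert i s hi ih =>
    rw [Finset.sum_insert hi]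
    exact InCn.add (h i (Finset.mem_insert_self i s))
      (ih fun j hj => h j (Finset.mem_insert_of_mem hj))

theorem InCn.trans {F G : Finset ℕ} {x : E} (hx : InCn F x) (h : ∀ X ∈ F, InCn G (vec X)) :
    InCn G x := by
  obtain ⟨c, hc, rfl⟩ := hx
  exact InCn.sum F _ fun X hX => InCn.smul _ (hc X) (h X hX)

theorem step (F G : Finset ℕ) (ℓ : E →ₗ[ℝ] ℝ)
    (h0 : ∀ X ∈ F, ℓ (vec X) = 0 → InCn G (vec X))
    (hp : ∀ X ∈ F, ∀ Y ∈ F, 0 < ℓ (vec X) → ℓ (vec Y) < 0 →
      InCn G ((-ℓ (vec Y)) • vec X + ℓ (vec X) • vec Y))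
    (x : E) (hx : InCn F x) (hl : ℓ x = 0) : InCn G x := by
  classical
  obtain ⟨c, hc, rfl⟩ := hx
  have hsplit : ∀ {V : Type} [AddCommGroup V] (f : ℕ → V), ∑ X ∈ F, f X =
      ∑ X ∈ F with ℓ (vec X) = 0, f X + (∑ X ∈ F with 0 < ℓ (vec X), f X +
        ∑ X ∈ F with ℓ (vec X) < 0, f X) := by
    intro V _ f
    rw [← Finset.sum_filter_add_sum_filter_not F (fun X => ℓ (vec X) = 0) f]
    congr 1
    rw [← Finset.sum_filter_add_sum_filter_not (F.filter fun X => ¬ ℓ (vec X) = 0)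
      (fun X => 0 < ℓ (vec X)) f, Finset.filter_filter, Finset.filter_filter]
    congr 1
    · refine Finset.sum_congr (Finset.filter_congr fun X _ => ?_) fun _ _ => rfl
      exact ⟨fun h => h.2, fun h => ⟨h.ne', h⟩⟩
    · refine Finset.sum_congr (Finset.filter_congr fun X _ => ?_) fun _ _ => rfl
      exact ⟨fun h => lt_of_le_of_ne (not_lt.1 h.2) h.1, fun h => ⟨h.ne, not_lt.2 h.le⟩⟩
  have hl' : ∑ X ∈ F, c X * ℓ (vec X) = 0 := by
    rw [← hl, map_sum]
    exact Finset.sum_congr rfl fun X _ => by rw [map_smul, smul_eq_mul]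
  rw [hsplit] at hl'
  rw [hsplit]
  have hz : ∑ X ∈ F with ℓ (vec X) = 0, c X * ℓ (vec X) = 0 :=
    Finset.sum_eq_zero fun X hX => by rw [(Finset.mem_filter.1 hX).2, mul_zero]
  rw [hz, zero_add] at hl'
  have hA : InCn G (∑ X ∈ F with ℓ (vec X) = 0, c X • vec X) :=
    InCn.sum _ _ fun X hX => InCn.smul _ (hc X)
      (h0 X (Finset.mem_filter.1 hX).1 (Finset.mem_filter.1 hX).2)
  refine InCn.add hA ?_
  have hpn : ∀ X ∈ F.filter (fun X => 0 < ℓ (vec X)), 0 ≤ c X * ℓ (vec X) := fun X hX =>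
    mul_nonneg (hc X) (Finset.mem_filter.1 hX).2.le
  have hnn : ∀ X ∈ F.filter (fun X => ℓ (vec X) < 0), 0 ≤ c X * -ℓ (vec X) := fun X hX =>
    mul_nonneg (hc X) (neg_nonneg.2 (Finset.mem_filter.1 hX).2.le)
  obtain ⟨M, hM⟩ : ∃ M, M = ∑ X ∈ F with 0 < ℓ (vec X), c X * ℓ (vec X) := ⟨_, rfl⟩
  have hM' : ∑ X ∈ F with ℓ (vec X) < 0, c X * -ℓ (vec X) = M := by
    rw [← hM] at hl'
    simp only [mul_neg, Finset.sum_neg_distrib]
    linarith
  have hM0 : 0 ≤ M := hM ▸ Finset.sum_nonneg hpn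
  rcases hM0.eq_or_lt with h | h
  · have h1 : ∑ X ∈ F with 0 < ℓ (vec X), c X • vec X = 0 := by
      refine Finset.sum_eq_zero fun X hX => ?_
      have h2 := (Finset.sum_eq_zero_iff_of_nonneg hpn).1 (hM.symm.trans h.symm) X hX
      rcases mul_eq_zero.1 h2 with h3 | h3
      · rw [h3, zero_smul]
      · exact absurd h3 (Finset.mem_filter.1 hX).2.ne'
    have h1' : ∑ X ∈ F with ℓ (vec X) < 0, c X • vec X = 0 := by
      refine Finset.sum_eq_zero fun X hX => ?_
      have h2 := (Finset.sum_eq_zero_iff_of_nonneg hnn).1 (hM'.trans h.symm) X hX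
      rcases mul_eq_zero.1 h2 with h3 | h3
      · rw [h3, zero_smul]
      · exact absurd (neg_eq_zero.1 h3) (Finset.mem_filter.1 hX).2.ne
    rw [h1, h1', add_zero]
    exact InCn.zero G
  · have h1 : ∑ X ∈ F with 0 < ℓ (vec X), ∑ Y ∈ F with ℓ (vec Y) < 0,
        (c X * c Y / M) • ((-ℓ (vec Y)) • vec X + ℓ (vec X) • vec Y) =
        ∑ X ∈ F with 0 < ℓ (vec X), c X • vec X + ∑ X ∈ F with ℓ (vec X) < 0, c X • vec X := by
      simp only [smul_add, Finset.sum_add_distrib, smul_smul]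
      congr 1
      · refine Finset.sum_congr rfl fun X _ => ?_
        rw [← Finset.sum_smul]
        congr 1
        have h2 : ∀ Y ∈ F.filter (fun Y => ℓ (vec Y) < 0),
            c X * c Y / M * -ℓ (vec Y) = c X / M * (c Y * -ℓ (vec Y)) := fun Y _ => by ring
        rw [Finset.sum_congr rfl h2, ← Finset.mul_sum, hM', div_mul_cancel₀ _ h.ne']
      · rw [Finset.sum_comm]
        refine Finset.sum_congr rfl fun Y _ => ?_
        rw [← Finset.sum_smul]
        congr 1
        have h2 : ∀ X ∈ F.filter (fun X => 0 < ℓ (vec X)),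
            c X * c Y / M * ℓ (vec X) = c Y / M * (c X * ℓ (vec X)) := fun X _ => by ring
        rw [Finset.sum_congr rfl h2, ← Finset.mul_sum, ← hM, div_mul_cancel₀ _ h.ne']
    rw [← h1]
    refine InCn.sum _ _ fun X hX => InCn.sum _ _ fun Y hY => ?_
    exact InCn.smul _ (div_nonneg (mul_nonneg (hc X) (hc Y)) h.le)
      (hp X (Finset.mem_filter.1 hX).1 Y (Finset.mem_filter.1 hY).1 (Finset.mem_filter.1 hX).2
        (Finset.mem_filter.1 hY).2)

end Pool.Agent.Helper2.GV
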